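import Mathlib
import Pool.Agent.T9h23.Cor.Pol

/-! Systems of compositions: the points, the product polynomial, the sum of the sieve model. -/

set_option autoImplicit false

namespace Pool.Agent.T9h23.BH
open Finset Polynomial
open Pool.Agent.H373R2.T7
open Pool.Agent.T9h23.Cor

/-- the random polynomial `P + ∑ a_i X^i` -/
noncomputable def hpol {d : ℕ} (P : ℤ[X]) (a : Fin (d + 1) → ℤ) : ℤ[X] := P + ∑ i, C (a i) * X ^ (i : ℕ)

lemma hpol_eval {d : ℕ} (P : ℤ[X]) (a : Fin (d + 1) → ℤ) (t : ℤ) : (hpol P a).eval t = fv (fun t => P.eval t) a t := by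
  unfold hpol fv
  rw [eval_add, eval_finsetSum]
  simp

/-- the points at which the `r` polynomials are evaluated -/
noncomputable def TT {r : ℕ} (G : Fin r → Finset ℤ[X]) (n : ℕ) (j : Fin r) : Finset ℤ := (G j).image (fun g => g.eval (n : ℤ))

/-- the product of all polynomials of the system -/
noncomputable def qq {r : ℕ} {dd : Fin r → ℕ} (G : Fin r → Finset ℤ[X]) (P : Fin r → ℤ[X]) (f : (j : Fin r) → (Fin (dd j + 1) → ℤ)) : ℤ[X] :=
  ∏ j, ∏ g ∈ G j, (hpol (P j) (f j)).comp g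

/-- the number of polynomials -/
def kk {r : ℕ} (G : Fin r → Finset ℤ[X]) : ℕ := ∑ j, (G j).card

/-- the truncated product `C_F(z)` -/
noncomputable def CC (q : ℤ[X]) (k z : ℕ) : ℝ := Dn q z * (Vz z)⁻¹ ^ k

/-- the bound for the number of coincidences -/
def CG {r : ℕ} (dd : Fin r → ℕ) (D : ℕ) : ℕ := ∑ j, dd j * (dd j * D)

/-- admissible systems of inner polynomials -/
structure GOK {r : ℕ} (dd : Fin r → ℕ) (D : ℕ) (G : Fin r → Finset ℤ[X]) : Prop where
  card : ∀ j, (G j).card ≤ dd j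
  deg : ∀ j, ∀ g ∈ G j, 1 ≤ g.natDegree ∧ g.natDegree ≤ D

lemma card_roots_le (x D : ℕ) (g : ℤ[X]) (hg : g ≠ 0) (hD : g.natDegree ≤ D) :
    ((Icc 1 x).filter (fun n : ℕ => g.eval (n : ℤ) = 0)).card ≤ D := by
  classical
  refine le_trans ?_ (((Multiset.toFinset_card_le _).trans (card_roots' g)).trans hD)
  apply card_le_card_of_injOn (fun n : ℕ => (n : ℤ))
  · intro n hn
    rw [mem_coe, mem_filter] at hn
    rw [mem_coe, Multiset.mem_toFinset, mem_roots hg]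
    exact hn.2
  · intro a _ b _ h
    have h' : (a : ℤ) = (b : ℤ) := h
    exact_mod_cast h'

lemma card_eval_eq (x D : ℕ) (g : ℤ[X]) (h1 : 1 ≤ g.natDegree) (hD : g.natDegree ≤ D) (v : ℤ) :
    ((Icc 1 x).filter (fun n : ℕ => g.eval (n : ℤ) = v)).card ≤ D := by
  have hd : (g - C v).natDegree = g.natDegree := natDegree_sub_C
  have h := card_roots_le x D (g - C v) (by
    intro h0
    rw [h0, natDegree_zero] at hd
    omega) (by omega)
  refine le_trans (card_le_card ?_) h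
  intro n hn
  rw [mem_filter] at hn ⊢
  refine ⟨hn.1, ?_⟩
  rw [eval_sub, eval_C, hn.2, sub_self]

open Classical in
lemma pairs_card {r : ℕ} {dd : Fin r → ℕ} {D : ℕ} {G : Fin r → Finset ℤ[X]} (hG : GOK dd D G) (x : ℕ) (n : ℕ) :
    ((Icc 1 x).filter (fun n' : ℕ => ∃ j, ¬ Disjoint (TT G n j) (TT G n' j))).card ≤ CG dd D := by
  have hsub : (Icc 1 x).filter (fun n' : ℕ => ∃ j, ¬ Disjoint (TT G n j) (TT G n' j)) ⊆
      (univ : Finset (Fin r)).biUnion (fun j => (G j).biUnion (fun g => (G j).biUnion (fun g' =>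
        (Icc 1 x).filter (fun n' : ℕ => g'.eval (n' : ℤ) = g.eval (n : ℤ))))) := by
    intro n' hn'
    rw [mem_filter] at hn'
    obtain ⟨h1, j, hj⟩ := hn'
    rw [not_disjoint_iff] at hj
    obtain ⟨t, ht, ht'⟩ := hj
    unfold TT at ht ht'
    rw [mem_image] at ht ht'
    obtain ⟨g, hg, hgt⟩ := ht
    obtain ⟨g', hg', hgt'⟩ := ht'
    rw [mem_biUnion]
    refine ⟨j, mem_univ _, ?_⟩
    rw [mem_biUnion]
    refine ⟨g, hg, ?_⟩
    rw [mem_biUnion]
    refine ⟨g', hg', ?_⟩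
    rw [mem_filter]
    exact ⟨h1, hgt'.trans hgt.symm⟩
  refine (card_le_card hsub).trans (card_biUnion_le.trans ?_)
  unfold CG
  apply sum_le_sum
  intro j _
  refine card_biUnion_le.trans ?_
  calc ∑ g ∈ G j, ((G j).biUnion (fun g' => (Icc 1 x).filter (fun n' : ℕ => g'.eval (n' : ℤ) = g.eval (n : ℤ)))).card
      ≤ ∑ _g ∈ G j, dd j * D := by
        apply sum_le_sum
        intro g _
        refine card_biUnion_le.trans ?_
        calc ∑ g' ∈ G j, ((Icc 1 x).filter (fun n' : ℕ => g'.eval (n' : ℤ) = g.eval (n : ℤ))).card ≤ ∑ _g' ∈ G j, D :=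
              sum_le_sum fun g' hg' => card_eval_eq x D g' (hG.deg j g' hg').1 (hG.deg j g' hg').2 _
          _ = (G j).card * D := by rw [sum_const, smul_eq_mul]
          _ ≤ dd j * D := Nat.mul_le_mul_right _ (hG.card j)
    _ = (G j).card * (dd j * D) := by rw [sum_const, smul_eq_mul]
    _ ≤ dd j * (dd j * D) := Nat.mul_le_mul_right _ (hG.card j)

lemma card_TT {r : ℕ} (G : Fin r → Finset ℤ[X]) (n : ℕ) (j : Fin r) : (TT G n j).card ≤ (G j).card := card_image_le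

open Classical in
lemma pairs_sum {r : ℕ} {dd : Fin r → ℕ} {D : ℕ} {G : Fin r → Finset ℤ[X]} (hG : GOK dd D G) (x : ℕ) (B : ℝ) (hB : 1 ≤ B) :
    ∑ q ∈ ((Icc 1 x) ×ˢ (Icc 1 x)).filter (fun q : ℕ × ℕ => ∃ j, ¬ Disjoint (TT G q.1 j) (TT G q.2 j)),
      B ^ (∑ j, (TT G q.1 j ∩ TT G q.2 j).card) ≤ CG dd D * x * B ^ kk G := by
  have h1 : ∀ q ∈ ((Icc 1 x) ×ˢ (Icc 1 x)).filter (fun q : ℕ × ℕ => ∃ j, ¬ Disjoint (TT G q.1 j) (TT G q.2 j)),
      B ^ (∑ j, (TT G q.1 j ∩ TT G q.2 j).card) ≤ B ^ kk G := by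
    intro q _
    apply pow_le_pow_right₀ hB
    unfold kk
    exact sum_le_sum fun j _ => (card_le_card inter_subset_left).trans (card_TT G q.1 j)
  refine (sum_le_sum h1).trans ?_
  rw [sum_const, nsmul_eq_mul]
  apply mul_le_mul_of_nonneg_right _ (by positivity)
  have h2 : (((Icc 1 x) ×ˢ (Icc 1 x)).filter (fun q : ℕ × ℕ => ∃ j, ¬ Disjoint (TT G q.1 j) (TT G q.2 j))).card ≤ CG dd D * x := by
    rw [card_filter, sum_product]
    calc ∑ n ∈ Icc 1 x, ∑ n' ∈ Icc 1 x, (if ∃ j, ¬ Disjoint (TT G n j) (TT G n' j) then 1 else 0)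
        ≤ ∑ _n ∈ Icc 1 x, CG dd D := by
          apply sum_le_sum
          intro n _
          rw [← card_filter]
          exact pairs_card hG x n
      _ = CG dd D * x := by rw [sum_const, smul_eq_mul, Nat.card_Icc, Nat.add_sub_cancel, mul_comm]
  exact_mod_cast h2

/-- the `n` at which two inner polynomials of the same group coincide -/
noncomputable def Co {r : ℕ} (G : Fin r → Finset ℤ[X]) (x : ℕ) : Finset ℕ :=
  open Classical in (Icc 1 x).filter (fun n : ℕ => ∃ j, ∃ g ∈ G j, ∃ g' ∈ G j, g ≠ g' ∧ g.eval (n : ℤ) = g'.eval (n : ℤ))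

lemma card_Co {r : ℕ} {dd : Fin r → ℕ} {D : ℕ} {G : Fin r → Finset ℤ[X]} (hG : GOK dd D G) (x : ℕ) :
    (Co G x).card ≤ CG dd D := by
  classical
  have hsub : Co G x ⊆
      (univ : Finset (Fin r)).biUnion (fun j => (G j).biUnion (fun g => (G j).biUnion (fun g' =>
        (Icc 1 x).filter (fun n : ℕ => g ≠ g' ∧ (g - g').eval (n : ℤ) = 0)))) := by
    intro n hn
    unfold Co at hn
    rw [mem_filter] at hn
    obtain ⟨h1, j, g, hg, g', hg', hne, he⟩ := hn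
    rw [mem_biUnion]
    refine ⟨j, mem_univ _, ?_⟩
    rw [mem_biUnion]
    refine ⟨g, hg, ?_⟩
    rw [mem_biUnion]
    refine ⟨g', hg', ?_⟩
    rw [mem_filter]
    refine ⟨h1, hne, ?_⟩
    rw [eval_sub, he, sub_self]
  refine (card_le_card hsub).trans (card_biUnion_le.trans ?_)
  unfold CG
  apply sum_le_sum
  intro j _
  refine card_biUnion_le.trans ?_
  calc ∑ g ∈ G j, ((G j).biUnion (fun g' => (Icc 1 x).filter (fun n : ℕ => g ≠ g' ∧ (g - g').eval (n : ℤ) = 0))).card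
      ≤ ∑ _g ∈ G j, dd j * D := by
        apply sum_le_sum
        intro g hg
        refine card_biUnion_le.trans ?_
        calc ∑ g' ∈ G j, ((Icc 1 x).filter (fun n : ℕ => g ≠ g' ∧ (g - g').eval (n : ℤ) = 0)).card ≤ ∑ _g' ∈ G j, D := by
              apply sum_le_sum
              intro g' hg'
              by_cases hne : g = g'
              · rw [filter_eq_empty_iff.2 (fun n _ h => h.1 hne), card_empty]
                omega
              · refine le_trans (card_le_card ?_) (card_roots_le x D (g - g') (sub_ne_zero.2 hne) ?_)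
                · intro n hn
                  rw [mem_filter] at hn ⊢
                  exact ⟨hn.1, hn.2.2⟩
                · exact (natDegree_sub_le _ _).trans (max_le (hG.deg j g hg).2 (hG.deg j g' hg').2)
          _ = (G j).card * D := by rw [sum_const, smul_eq_mul]
          _ ≤ dd j * D := Nat.mul_le_mul_right _ (hG.card j)
    _ = (G j).card * (dd j * D) := by rw [sum_const, smul_eq_mul]
    _ ≤ dd j * (dd j * D) := Nat.mul_le_mul_right _ (hG.card j)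

/-- the weight of `n` in terms of the polynomials -/
lemma MM_TT {r : ℕ} {dd : Fin r → ℕ} (w : ℤ → ℝ) (P : Fin r → ℤ[X]) (f : (j : Fin r) → (Fin (dd j + 1) → ℤ))
    (G : Fin r → Finset ℤ[X]) {x n : ℕ} (hn : n ∈ Icc 1 x) (hco : n ∉ Co G x) :
    MM w (fun j t => (P j).eval t) f (TT G n) = ∏ j, ∏ g ∈ G j, w (((hpol (P j) (f j)).comp g).eval (n : ℤ)) := by
  classical
  unfold MM TT
  refine prod_congr rfl fun j _ => ?_
  rw [prod_image]
  · refine prod_congr rfl fun g _ => ?_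
    rw [eval_comp, hpol_eval]
  · intro g hg g' hg' h
    by_contra hne
    apply hco
    unfold Co
    rw [mem_filter]
    exact ⟨hn, j, g, hg, g', hg', hne, h⟩

lemma MM_lz_le {r : ℕ} {dd : Fin r → ℕ} (y : ℕ) (P : Fin r → ℤ → ℤ) (f : (j : Fin r) → (Fin (dd j + 1) → ℤ))
    (G : Fin r → Finset ℤ[X]) (n : ℕ) : MM (lz y) P f (TT G n) ≤ (Vz y)⁻¹ ^ kk G := by
  have hV1 : 1 ≤ (Vz y)⁻¹ := (one_le_inv₀ (Vz_pos _)).2 (Vz_le_one y)
  unfold MM kk
  rw [← prod_pow_eq_pow_sum]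
  apply prod_le_prod
  · intro j _
    exact prod_nonneg fun _ _ => lz_nonneg _ _
  · intro j _
    calc ∏ t ∈ TT G n j, lz y (fv (P j) (f j) t) ≤ ∏ _t ∈ TT G n j, (Vz y)⁻¹ := prod_le_prod (fun _ _ => lz_nonneg _ _) fun _ _ => lz_le _ _
      _ = (Vz y)⁻¹ ^ (TT G n j).card := by rw [prod_const]
      _ ≤ _ := pow_le_pow_right₀ hV1 (card_TT G n j)

lemma dvd_qq {r : ℕ} {dd : Fin r → ℕ} (G : Fin r → Finset ℤ[X]) (P : Fin r → ℤ[X]) (f : (j : Fin r) → (Fin (dd j + 1) → ℤ))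
    {p : ℕ} (hp : p.Prime) (n : ℤ) : (p : ℤ) ∣ (qq G P f).eval n ↔ ∃ j, ∃ g ∈ G j, (p : ℤ) ∣ ((hpol (P j) (f j)).comp g).eval n := by
  have hpi := Nat.prime_iff_prime_int.1 hp
  unfold qq
  rw [eval_prod]
  simp only [eval_prod]
  rw [hpi.dvd_finsetProd_iff]
  constructor
  · rintro ⟨j, _, hj⟩
    rw [hpi.dvd_finsetProd_iff] at hj
    obtain ⟨g, hg, h⟩ := hj
    exact ⟨j, g, hg, h⟩
  · rintro ⟨j, g, hg, h⟩
    refine ⟨j, mem_univ _, ?_⟩
    rw [hpi.dvd_finsetProd_iff]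
    exact ⟨g, hg, h⟩

lemma prod_lz_eq {r : ℕ} {dd : Fin r → ℕ} (G : Fin r → Finset ℤ[X]) (P : Fin r → ℤ[X]) (f : (j : Fin r) → (Fin (dd j + 1) → ℤ))
    (y n : ℕ) : ∏ j, ∏ g ∈ G j, lz y (((hpol (P j) (f j)).comp g).eval (n : ℤ)) =
      (Vz y)⁻¹ ^ kk G * (if ∀ p ∈ pz y, ¬ (p : ℤ) ∣ (qq G P f).eval (n : ℤ) then (1 : ℝ) else 0) := by
  split_ifs with h
  · rw [mul_one]
    unfold kk
    rw [← prod_pow_eq_pow_sum]
    refine prod_congr rfl fun j _ => ?_
    rw [← prod_const]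
    refine prod_congr rfl fun g hg => ?_
    unfold lz lamz
    rw [if_pos]
    intro p hp hd
    exact h p hp ((dvd_qq G P f (mem_pz.1 hp).2 _).2 ⟨j, g, hg, Int.natCast_dvd.2 hd⟩)
  · rw [mul_zero]
    push Not at h
    obtain ⟨p, hp, hd⟩ := h
    obtain ⟨j, g, hg, hd'⟩ := (dvd_qq G P f (mem_pz.1 hp).2 _).1 hd
    apply prod_eq_zero (mem_univ j)
    apply prod_eq_zero hg
    unfold lz lamz
    rw [if_neg]
    intro h2
    exact h2 p hp (Int.natCast_dvd.1 hd')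

/-- the sum of the sieve model -/
lemma sum_model {r : ℕ} {dd : Fin r → ℕ} {D : ℕ} {G : Fin r → Finset ℤ[X]} (hG : GOK dd D G) (P : Fin r → ℤ[X])
    (f : (j : Fin r) → (Fin (dd j + 1) → ℤ)) (y x : ℕ) :
    |∑ n ∈ Icc 1 x, MM (lz y) (fun j t => (P j).eval t) f (TT G n) -
      (Vz y)⁻¹ ^ kk G * ((((Icc 1 x).filter (fun n : ℕ => ∀ p ∈ pz y, ¬ (p : ℤ) ∣ (qq G P f).eval (n : ℤ))).card : ℕ) : ℝ)| ≤
      CG dd D * (Vz y)⁻¹ ^ kk G := by
  classical
  have hV0 : 0 ≤ (Vz y)⁻¹ ^ kk G := pow_nonneg (inv_pos.2 (Vz_pos y)).le _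
  have e1 : (Vz y)⁻¹ ^ kk G * ((((Icc 1 x).filter (fun n : ℕ => ∀ p ∈ pz y, ¬ (p : ℤ) ∣ (qq G P f).eval (n : ℤ))).card : ℕ) : ℝ) =
      ∑ n ∈ Icc 1 x, (Vz y)⁻¹ ^ kk G * (if ∀ p ∈ pz y, ¬ (p : ℤ) ∣ (qq G P f).eval (n : ℤ) then (1 : ℝ) else 0) := by
    rw [← mul_sum, sum_boole]
  rw [e1, ← sum_sub_distrib]
  refine (abs_sum_le_sum_abs _ _).trans ?_
  have h1 : ∀ n ∈ Icc 1 x, |MM (lz y) (fun j t => (P j).eval t) f (TT G n) -
      (Vz y)⁻¹ ^ kk G * (if ∀ p ∈ pz y, ¬ (p : ℤ) ∣ (qq G P f).eval (n : ℤ) then (1 : ℝ) else 0)| ≤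
      if n ∈ Co G x then (Vz y)⁻¹ ^ kk G else 0 := by
    intro n hn
    by_cases hco : n ∈ Co G x
    · rw [if_pos hco]
      have h2 := MM_lz_le y (fun j t => (P j).eval t) f G n
      have h0 := MM_nonneg (lz_nonneg y) (fun j t => (P j).eval t) f (TT G n)
      split_ifs with h3
      · rw [mul_one, abs_le]
        constructor <;> linarith
      · rw [mul_zero, sub_zero, abs_of_nonneg h0]
        exact h2
    · rw [if_neg hco, MM_TT (lz y) P f G hn hco, prod_lz_eq, sub_self, abs_zero]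
  refine (sum_le_sum h1).trans ?_
  rw [← sum_filter, sum_const, nsmul_eq_mul]
  apply mul_le_mul_of_nonneg_right _ hV0
  have h2 : ((Icc 1 x).filter (fun n => n ∈ Co G x)).card ≤ CG dd D := by
    refine (card_le_card ?_).trans (card_Co hG x)
    intro n hn
    exact (mem_filter.1 hn).2
  exact_mod_cast h2

/-- the bound for the degree of the product -/
def cdeg {r : ℕ} (dd : Fin r → ℕ) (D : ℕ) : ℕ := ∑ j, dd j * ((D + dd j) * D)

lemma hpol_deg {d : ℕ} {D : ℕ} (P : ℤ[X]) (hP : P.natDegree ≤ D) (a : Fin (d + 1) → ℤ) : (hpol P a).natDegree ≤ D + d := by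
  unfold hpol
  refine (natDegree_add_le _ _).trans (max_le (by omega) ?_)
  refine natDegree_sum_le_of_forall_le _ _ fun i _ => ?_
  refine (natDegree_C_mul_X_pow_le _ _).trans ?_
  have := i.2
  omega

lemma qq_deg {r : ℕ} {dd : Fin r → ℕ} {D : ℕ} {G : Fin r → Finset ℤ[X]} (hG : GOK dd D G) (P : Fin r → ℤ[X])
    (hP : ∀ j, (P j).natDegree ≤ D) (f : (j : Fin r) → (Fin (dd j + 1) → ℤ)) : (qq G P f).natDegree ≤ cdeg dd D := by
  unfold qq cdeg
  refine (natDegree_prod_le _ _).trans (sum_le_sum fun j _ => ?_)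
  refine (natDegree_prod_le _ _).trans ?_
  calc ∑ g ∈ G j, ((hpol (P j) (f j)).comp g).natDegree ≤ ∑ _g ∈ G j, (D + dd j) * D := by
        apply sum_le_sum
        intro g hg
        rw [natDegree_comp]
        exact Nat.mul_le_mul (hpol_deg (P j) (hP j) (f j)) (hG.deg j g hg).2
    _ = (G j).card * ((D + dd j) * D) := by rw [sum_const, smul_eq_mul]
    _ ≤ _ := Nat.mul_le_mul_right _ (hG.card j)

end Pool.Agent.T9h23.BH
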