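import Mathlib
import Pool.Agent.T9h23.BH.A1

/-! Tools: Chebyshev's inequality, geometric grids, bounds for the values; the second moment for systems of compositions. -/

set_option autoImplicit false

namespace Pool.Agent.T9h23.BH
open Finset Polynomial
open Pool.Agent.H373R2.T7
open Pool.Agent.T9h23.Cor

lemma cheb {α : Type*} (Ω : Finset α) (S : α → ℝ) (B lam : ℝ) (hl : 0 < lam) (h : ∑ f ∈ Ω, S f ^ 2 ≤ B) :
    (open Classical in ((Ω.filter (fun f => lam < |S f|)).card : ℝ)) ≤ B / lam ^ 2 := by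
  classical
  rw [le_div_iff₀ (by positivity)]
  refine le_trans ?_ h
  calc ((Ω.filter (fun f => lam < |S f|)).card : ℝ) * lam ^ 2 = ∑ _f ∈ Ω.filter (fun f => lam < |S f|), lam ^ 2 := by
        rw [sum_const, nsmul_eq_mul]
    _ ≤ ∑ f ∈ Ω.filter (fun f => lam < |S f|), S f ^ 2 := by
        apply sum_le_sum
        intro f hf
        rw [mem_filter] at hf
        rw [← sq_abs (S f)]
        exact pow_le_pow_left₀ hl.le hf.2.le 2
    _ ≤ _ := sum_le_sum_of_subset_of_nonneg (filter_subset _ _) fun _ _ _ => sq_nonneg _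

/-- the geometric grid -/
noncomputable def gp (Y ε : ℝ) (i : ℕ) : ℕ := ⌈Y * (1 + ε) ^ i⌉₊

lemma gp_grid (Y ε : ℝ) (hY : 1 ≤ Y) (hε : 0 < ε) (hYε : 1 ≤ Y * ε) (z : ℕ) (hz : Y ≤ z) :
    ∃ i : ℕ, gp Y ε i ≤ z ∧ z ≤ gp Y ε (i + 1) ∧ (gp Y ε (i + 1) : ℝ) ≤ (1 + 2 * ε) * gp Y ε i ∧ (1 + ε) ^ i ≤ (z : ℝ) ∧
      Y ≤ gp Y ε i := by
  have hY0 : 0 < Y := by linarith
  obtain ⟨i, hi1, hi2⟩ := exists_nat_pow_near (x := (z : ℝ) / Y) (y := 1 + ε) (by rw [le_div_iff₀ hY0]; linarith) (by linarith)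
  rw [le_div_iff₀ hY0] at hi1
  rw [div_lt_iff₀ hY0] at hi2
  have hp : 1 ≤ (1 + ε) ^ i := one_le_pow₀ (by linarith)
  have hgi : Y * (1 + ε) ^ i ≤ gp Y ε i := Nat.le_ceil _
  refine ⟨i, ?_, ?_, ?_, ?_, ?_⟩
  · unfold gp
    apply Nat.ceil_le.2
    linarith
  · have h1 : (z : ℝ) ≤ gp Y ε (i + 1) := by
      refine le_trans ?_ (Nat.le_ceil _)
      linarith
    exact_mod_cast h1
  · have h1 : (gp Y ε (i + 1) : ℝ) ≤ Y * (1 + ε) ^ (i + 1) + 1 := (Nat.ceil_lt_add_one (by positivity)).le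
    have h2 : Y * (1 + ε) ^ (i + 1) = Y * (1 + ε) ^ i + ε * (Y * (1 + ε) ^ i) := by rw [pow_succ]; ring
    have h3 : 1 ≤ ε * (Y * (1 + ε) ^ i) := by
      calc (1 : ℝ) ≤ Y * ε := hYε
        _ ≤ Y * ε * (1 + ε) ^ i := le_mul_of_one_le_right (by positivity) hp
        _ = _ := by ring
    have h4 : (1 + 2 * ε) * (Y * (1 + ε) ^ i) ≤ (1 + 2 * ε) * gp Y ε i := by gcongr
    nlinarith
  · have : (1 + ε) ^ i * 1 ≤ (1 + ε) ^ i * Y := by gcongr
    linarith
  · refine le_trans ?_ hgi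
    nlinarith

/-- the number of the steps of a grid up to `(log H)^A` is smaller than every power of `log H` -/
lemma grid_len (A : ℕ) (ε e : ℝ) (hε : 0 < ε) (he : 0 < e) : ∃ H0 : ℕ, ∀ H : ℕ, H0 ≤ H → ∃ M : ℕ, (M : ℝ) + 2 ≤ Real.log H ^ e ∧
    ∀ i : ℕ, (1 + ε) ^ i ≤ Real.log H ^ A → i ≤ M := by
  have hlim : Filter.Tendsto (fun N : ℕ => Real.log (N : ℝ)) Filter.atTop Filter.atTop :=
    Real.tendsto_log_atTop.comp (tendsto_natCast_atTop_atTop (R := ℝ))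
  have hl1 : 0 < Real.log (1 + ε) := Real.log_pos (by linarith)
  have h3 := (isLittleO_log_rpow_atTop he).bound (show (0 : ℝ) < Real.log (1 + ε) / (2 * (A + 1)) by positivity)
  have h4 := hlim.eventually h3
  obtain ⟨N0, h0⟩ := Filter.eventually_atTop.1 (h4.and ((hlim.eventually_ge_atTop 1).and
    (((tendsto_rpow_atTop he).comp hlim).eventually_ge_atTop 6)))
  refine ⟨N0, fun H hH => ?_⟩
  obtain ⟨h5, hL, hL6⟩ := h0 H hH
  simp only [Function.comp] at hL6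
  have hll : 0 ≤ Real.log (Real.log H) := Real.log_nonneg hL
  rw [Real.norm_of_nonneg hll, Real.norm_of_nonneg (by positivity)] at h5
  refine ⟨⌈(A : ℝ) * Real.log (Real.log H) / Real.log (1 + ε)⌉₊, ?_, fun i hi => ?_⟩
  · have h6 : (⌈(A : ℝ) * Real.log (Real.log H) / Real.log (1 + ε)⌉₊ : ℝ) ≤ (A : ℝ) * Real.log (Real.log H) / Real.log (1 + ε) + 1 :=
      (Nat.ceil_lt_add_one (by positivity)).le
    have h7 : (A : ℝ) * Real.log (Real.log H) / Real.log (1 + ε) ≤ Real.log H ^ e / 2 := by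
      rw [div_le_iff₀ hl1]
      have hA1 : (A : ℝ) ≤ A + 1 := by linarith
      calc (A : ℝ) * Real.log (Real.log H) ≤ (A + 1) * (Real.log (1 + ε) / (2 * (A + 1)) * Real.log H ^ e) := by gcongr
        _ = Real.log H ^ e / 2 * Real.log (1 + ε) := by field_simp
    linarith
  · have h6 : (i : ℝ) * Real.log (1 + ε) ≤ A * Real.log (Real.log H) := by
      have h7 := Real.log_le_log (by positivity) hi
      rwa [Real.log_pow, Real.log_pow] at h7
    have h8 : (i : ℝ) ≤ (A : ℝ) * Real.log (Real.log H) / Real.log (1 + ε) := by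
      rw [le_div_iff₀ hl1]
      exact h6
    exact_mod_cast h8.trans (Nat.le_ceil _)

/-- the trivial bound for the ratio of two products -/
lemma V_ratio {u v : ℕ} (hu : 1 ≤ u) (huv : u ≤ v) : (Vz v)⁻¹ ≤ (v / u : ℝ) * (Vz u)⁻¹ := by
  have hu0 : (0 : ℝ) < u := by exact_mod_cast hu
  induction v, huv using Nat.le_induction with
  | base => rw [div_self hu0.ne', one_mul]
  | succ v huv ih =>
    have hv0 : (0 : ℝ) < v := by exact_mod_cast (by omega : 0 < v)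
    have h1 : (Vz (v + 1))⁻¹ ≤ ((v + 1 : ℝ) / v) * (Vz v)⁻¹ := by
      have hsub : pz v ⊆ pz (v + 1) := by
        intro p hp
        rw [mem_pz] at hp ⊢
        exact ⟨by omega, hp.2⟩
      by_cases hp : (v + 1).Prime
      · have e1 : pz (v + 1) = insert (v + 1) (pz v) := by
          ext p
          rw [mem_insert, mem_pz, mem_pz]
          constructor
          · rintro ⟨h1, h2⟩
            rcases Nat.lt_or_ge p (v + 1) with h | h
            · exact Or.inr ⟨by omega, h2⟩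
            · exact Or.inl (by omega)
          · rintro (h | h)
            · rw [h]; exact ⟨le_rfl, hp⟩
            · exact ⟨by omega, h.2⟩
        have hn : v + 1 ∉ pz v := by rw [mem_pz]; omega
        unfold Vz
        rw [e1, prod_insert hn, mul_inv]
        apply le_of_eq
        congr 1
        push_cast
        have hv1 : (v : ℝ) + 1 ≠ 0 := by linarith
        have h5 : 1 - 1 / ((v : ℝ) + 1) = v / (v + 1) := by
          rw [eq_div_iff hv1, sub_mul, div_mul_cancel₀ _ hv1]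
          ring
        rw [h5, inv_div]
      · have e1 : pz (v + 1) = pz v := by
          apply Subset.antisymm _ hsub
          intro p hp'
          rw [mem_pz] at hp' ⊢
          refine ⟨?_, hp'.2⟩
          rcases Nat.lt_or_ge p (v + 1) with h | h
          · omega
          · exact absurd ((by omega : p = v + 1) ▸ hp'.2) hp
        unfold Vz
        rw [e1]
        have h2 := inv_pos.2 (Vz_pos v)
        unfold Vz at h2
        have h3 : 1 ≤ (v + 1 : ℝ) / v := by rw [le_div_iff₀ hv0]; linarith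
        nlinarith
    refine h1.trans ?_
    calc ((v + 1 : ℝ) / v) * (Vz v)⁻¹ ≤ ((v + 1 : ℝ) / v) * ((v / u : ℝ) * (Vz u)⁻¹) := by gcongr
      _ = _ := by
          push_cast
          field_simp

lemma CC_nonneg (q : ℤ[X]) (k z : ℕ) : 0 ≤ CC q k z :=
  mul_nonneg (Dn_nonneg q z) (pow_nonneg (inv_pos.2 (Vz_pos z)).le _)

lemma CC_between (q : ℤ[X]) (k : ℕ) {u z v : ℕ} (hu : 1 ≤ u) (huz : u ≤ z) (hzv : z ≤ v) (ρ : ℝ) (hρ : (v : ℝ) ≤ ρ * u) :
    CC q k z ≤ ρ ^ k * CC q k u ∧ CC q k v ≤ ρ ^ k * CC q k z := by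
  have hu0 : (0 : ℝ) < u := by exact_mod_cast hu
  have huz' : (u : ℝ) ≤ z := by exact_mod_cast huz
  have hzv' : (z : ℝ) ≤ v := by exact_mod_cast hzv
  have hz0 : (0 : ℝ) < z := by linarith
  have hρ0 : 0 < ρ := by
    have : 0 < ρ * u := by linarith
    exact pos_of_mul_pos_left this hu0.le
  have hgen : ∀ a b : ℕ, 1 ≤ a → a ≤ b → (b : ℝ) ≤ ρ * a → CC q k b ≤ ρ ^ k * CC q k a := by
    intro a b ha hab hb
    have ha0 : (0 : ℝ) < a := by exact_mod_cast ha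
    have h1 := V_ratio ha hab
    have h2 : (b / a : ℝ) ≤ ρ := by rw [div_le_iff₀ ha0]; exact hb
    have h3 : (Vz b)⁻¹ ≤ ρ * (Vz a)⁻¹ := h1.trans (mul_le_mul_of_nonneg_right h2 (inv_pos.2 (Vz_pos a)).le)
    have h4 : (Vz b)⁻¹ ^ k ≤ ρ ^ k * (Vz a)⁻¹ ^ k := by
      rw [← mul_pow]
      exact pow_le_pow_left₀ (inv_pos.2 (Vz_pos b)).le h3 k
    unfold CC
    calc Dn q b * (Vz b)⁻¹ ^ k ≤ Dn q a * (ρ ^ k * (Vz a)⁻¹ ^ k) :=
          mul_le_mul (Dn_anti q hab) h4 (pow_nonneg (inv_pos.2 (Vz_pos b)).le _) (Dn_nonneg q a)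
      _ = _ := by ring
  constructor
  · exact hgen u z hu huz (hzv'.trans hρ)
  · exact hgen z v (hu.trans huz) hzv (hρ.trans (by gcongr))

lemma eval_bound (g : ℤ[X]) (D : ℕ) (hD : g.natDegree ≤ D) (M X : ℝ) (hX : 1 ≤ X) (hM : ∀ i, |(g.coeff i : ℝ)| ≤ M) (t : ℤ)
    (ht : |(t : ℝ)| ≤ X) : |((g.eval t : ℤ) : ℝ)| ≤ (D + 1) * (M * X ^ D) := by
  rw [eval_eq_sum_range' (Nat.lt_succ_of_le hD)]
  push_cast
  refine (abs_sum_le_sum_abs _ _).trans ?_
  have hM0 : 0 ≤ M := (abs_nonneg _).trans (hM 0)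
  calc ∑ i ∈ range (D + 1), |(g.coeff i : ℝ) * (t : ℝ) ^ i| ≤ ∑ _i ∈ range (D + 1), M * X ^ D := by
        apply sum_le_sum
        intro i hi
        rw [mem_range] at hi
        rw [abs_mul, abs_pow]
        apply mul_le_mul (hM i) _ (by positivity) hM0
        calc |(t : ℝ)| ^ i ≤ X ^ i := pow_le_pow_left₀ (abs_nonneg _) ht i
          _ ≤ X ^ D := pow_le_pow_right₀ hX (by omega)
    _ = _ := by
        rw [sum_const, card_range, nsmul_eq_mul]
        push_cast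
        ring

/-- the coefficients of the fixed polynomials are small -/
structure Small {r : ℕ} (H A D : ℕ) (P : Fin r → ℤ[X]) (G : Fin r → Finset ℤ[X]) : Prop where
  degP : ∀ j, (P j).natDegree ≤ D
  coefP : ∀ j i, |((P j).coeff i : ℝ)| ≤ H * Real.log H ^ A
  coefG : ∀ j, ∀ g ∈ G j, ∀ i, |(g.coeff i : ℝ)| ≤ Real.log H ^ A

/-- the points and the values are small -/
theorem pts (D A B : ℕ) : ∃ A' H0 : ℕ, ∀ H : ℕ, H0 ≤ H → ∃ T0 : ℕ, (T0 : ℝ) ≤ Real.log H ^ A' ∧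
    ∀ (r : ℕ) (dd : Fin r → ℕ) (P : Fin r → ℤ[X]) (G : Fin r → Finset ℤ[X]), GOK dd D G → Small H A D P G →
    (∀ j, ∀ t : ℤ, |t| ≤ T0 → |(((P j).eval t : ℤ) : ℝ)| ≤ H * Real.log H ^ A') ∧
    (∀ n : ℕ, (n : ℝ) ≤ Real.log H ^ B → ∀ j, ∀ t ∈ TT G n j, |t| ≤ (T0 : ℤ)) := by
  obtain ⟨A2, hA2⟩ : ∃ A2, A2 = A + B * D + 1 := ⟨_, rfl⟩
  obtain ⟨n0, h0⟩ := ev_L' (D + 2)
  refine ⟨A2 + (A + A2 * D + 1), max n0 3, fun H hH => ?_⟩
  have hL := h0 H ((le_max_left _ _).trans hH)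
  have hD0 : (0 : ℝ) ≤ D := Nat.cast_nonneg D
  obtain ⟨L, hLd⟩ : ∃ L, L = Real.log H := ⟨_, rfl⟩
  rw [← hLd] at hL
  have hL1 : 1 ≤ L := by linarith
  have hL0 : 0 < L := by linarith
  refine ⟨⌊L ^ A2⌋₊, ?_, fun r dd P G hG hS => ⟨?_, ?_⟩⟩
  · rw [← hLd]
    exact (Nat.floor_le (by positivity)).trans (pow_le_pow_right₀ hL1 (by omega))
  · intro j t ht
    rw [← hLd]
    have h1 : |(t : ℝ)| ≤ L ^ A2 := by
      have : ((|t| : ℤ) : ℝ) ≤ ((⌊L ^ A2⌋₊ : ℤ) : ℝ) := by exact_mod_cast ht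
      push_cast at this
      exact this.trans (Nat.floor_le (by positivity))
    have h2 := eval_bound (P j) D (hS.degP j) (H * L ^ A) (L ^ A2) (one_le_pow₀ hL1) (fun i => by rw [hLd]; exact hS.coefP j i) t h1
    refine h2.trans ?_
    calc ((D : ℝ) + 1) * (H * L ^ A * (L ^ A2) ^ D) = H * (((D : ℝ) + 1) * (L ^ A * (L ^ A2) ^ D)) := by ring
      _ ≤ H * (L * (L ^ A * (L ^ A2) ^ D)) := by gcongr; linarith
      _ = H * L ^ (A + A2 * D + 1) := by rw [← pow_mul]; ring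
      _ ≤ H * L ^ (A2 + (A + A2 * D + 1)) := by
          apply mul_le_mul_of_nonneg_left _ (Nat.cast_nonneg H)
          exact pow_le_pow_right₀ hL1 (by omega)
  · intro n hn j t ht
    unfold TT at ht
    rw [mem_image] at ht
    obtain ⟨g, hg, rfl⟩ := ht
    have hn' : |(((n : ℤ)) : ℝ)| ≤ L ^ B := by
      rw [Int.cast_natCast, abs_of_nonneg (Nat.cast_nonneg n), hLd]
      exact hn
    have h2 := eval_bound g D (hG.deg j g hg).2 (L ^ A) (L ^ B) (one_le_pow₀ hL1) (fun i => by rw [hLd]; exact hS.coefG j g hg i) n hn'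
    have h3 : |((g.eval (n : ℤ) : ℤ) : ℝ)| ≤ L ^ A2 := by
      refine h2.trans ?_
      calc ((D : ℝ) + 1) * (L ^ A * (L ^ B) ^ D) ≤ L * (L ^ A * (L ^ B) ^ D) := by gcongr; linarith
        _ = L ^ A2 := by rw [hA2, ← pow_mul]; ring
    have h4 : ((g.eval (n : ℤ)).natAbs : ℝ) ≤ L ^ A2 := by rwa [Nat.cast_natAbs, Int.cast_abs]
    have h5 : (g.eval (n : ℤ)).natAbs ≤ ⌊L ^ A2⌋₊ := Nat.le_floor h4
    rw [Int.abs_eq_natAbs]
    exact_mod_cast h5

/-- the second moment for systems of compositions -/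
theorem SM (r : ℕ) (dd : Fin r → ℕ) (D A B : ℕ) (hdd : ∀ j, 1 ≤ dd j) (e e' : ℝ) (he : 0 < e) (he' : 0 < e') :
    ∃ H0 : ℕ, ∀ H : ℕ, H0 ≤ H → ∀ y : ℕ, Real.log H ^ e ≤ y → (y : ℝ) ≤ Real.log H ^ B →
    ∀ (P : Fin r → ℤ[X]) (G : Fin r → Finset ℤ[X]), GOK dd D G → Small H A D P G → ∀ x : ℕ, (x : ℝ) ≤ Real.log H ^ B →
    ∀ w : ℤ → ℝ, Wt H B y w →
    ∑ f ∈ Om dd H, (∑ n ∈ Icc 1 x, (MM w (fun j t => (P j).eval t) f (TT G n) - MM (lz y) (fun j t => (P j).eval t) f (TT G n))) ^ 2 ≤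
      NN dd H * (Real.log H ^ e' * ((x : ℝ) ^ 2 / y + x * Real.log H ^ kk G)) := by
  classical
  obtain ⟨A', n0, h0⟩ := pts D A B
  obtain ⟨n1, h1⟩ := second r dd A' B hdd e (e' / 2) he (by positivity)
  obtain ⟨n2, h2⟩ := ev_rpow ((CG dd D + 1) * 2 ^ (∑ j, dd j)) (e' / 2) (by positivity)
  obtain ⟨n3, h3⟩ := ev_L' 2
  refine ⟨max (max n0 n1) (max n2 n3), fun H hH y hy1 hy2 P G hG hS x hx w hw => ?_⟩
  have hn0 : n0 ≤ H := ((le_max_left _ _).trans (le_max_left _ _)).trans hH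
  have hn1 : n1 ≤ H := ((le_max_right _ _).trans (le_max_left _ _)).trans hH
  have hn2 : n2 ≤ H := ((le_max_left _ _).trans (le_max_right _ _)).trans hH
  have hn3 : n3 ≤ H := ((le_max_right _ _).trans (le_max_right _ _)).trans hH
  obtain ⟨T0, hT0, hT⟩ := h0 H hn0
  obtain ⟨hP, hpt⟩ := hT r dd P G hG hS
  have hL := h3 H hn3
  have hL0 : 0 < Real.log H := by linarith
  have hL1 : 1 ≤ Real.log H := by linarith
  have a2 := h2 H hn2
  have hm := h1 H hn1 y hy1 hy2 T0 (fun j t => (P j).eval t) hT0 hP ℕ (Icc 1 x) (TT G)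
    (fun n _ j => (card_TT G n j).trans (hG.card j))
    (fun n hn j t ht => hpt n (le_trans (by exact_mod_cast (mem_Icc.1 hn).2) hx) j t ht) w hw
  refine hm.trans ?_
  apply mul_le_mul_of_nonneg_left _ (NN_pos dd H).le
  have hps := pairs_sum hG x (2 * Real.log H) (by linarith)
  rw [Nat.card_Icc, Nat.add_sub_cancel]
  have hkk : kk G ≤ ∑ j, dd j := sum_le_sum fun j _ => hG.card j
  have e1 : Real.log H ^ (e' / 2) * Real.log H ^ (e' / 2) = Real.log H ^ e' := by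
    rw [← Real.rpow_add hL0]; congr 1; ring
  have hx0 : (0 : ℝ) ≤ x := Nat.cast_nonneg x
  have hy0 : (0 : ℝ) ≤ y := Nat.cast_nonneg y
  have h2k : (2 : ℝ) ^ kk G ≤ 2 ^ (∑ j, dd j) := pow_le_pow_right₀ (by norm_num) hkk
  have hc1 : 1 ≤ ((CG dd D : ℝ) + 1) * 2 ^ (∑ j, dd j) := by
    have : (1 : ℝ) ≤ 2 ^ (∑ j, dd j) := one_le_pow₀ (by norm_num)
    have h5 : (0 : ℝ) ≤ CG dd D := Nat.cast_nonneg _
    nlinarith
  calc Real.log H ^ (e' / 2) * ((x : ℝ) ^ 2 / y + _) ≤ Real.log H ^ (e' / 2) * ((x : ℝ) ^ 2 / y + CG dd D * x * (2 * Real.log H) ^ kk G) := by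
        gcongr
    _ ≤ Real.log H ^ (e' / 2) * ((((CG dd D : ℝ) + 1) * 2 ^ (∑ j, dd j)) * ((x : ℝ) ^ 2 / y) +
        (((CG dd D : ℝ) + 1) * 2 ^ (∑ j, dd j)) * (x * Real.log H ^ kk G)) := by
        apply mul_le_mul_of_nonneg_left _ (by positivity)
        apply add_le_add
        · exact le_mul_of_one_le_left (by positivity) hc1
        · calc (CG dd D : ℝ) * x * (2 * Real.log H) ^ kk G = ((CG dd D : ℝ) * 2 ^ kk G) * (x * Real.log H ^ kk G) := by
                rw [mul_pow]; ring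
            _ ≤ _ := by
                apply mul_le_mul_of_nonneg_right _ (by positivity)
                apply mul_le_mul (by linarith) h2k (by positivity) (by positivity)
    _ = Real.log H ^ (e' / 2) * (((CG dd D : ℝ) + 1) * 2 ^ (∑ j, dd j)) * ((x : ℝ) ^ 2 / y + x * Real.log H ^ kk G) := by ring
    _ ≤ Real.log H ^ (e' / 2) * Real.log H ^ (e' / 2) * ((x : ℝ) ^ 2 / y + x * Real.log H ^ kk G) := by gcongr
    _ = _ := by rw [e1]

end Pool.Agent.T9h23.BH
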