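import Mathlib
import Pool.Agent.T9h23.BH.A2

/-! The truncated products are stable for almost all systems. -/

set_option autoImplicit false

namespace Pool.Agent.T9h23.BH
open Finset Polynomial
open Pool.Agent.H373R2.T7
open Pool.Agent.T9h23.Cor

/-- the sieve for the sum of the model -/
lemma model_sieve {r : ℕ} {dd : Fin r → ℕ} {D : ℕ} {G : Fin r → Finset ℤ[X]} (hG : GOK dd D G) (P : Fin r → ℤ[X])
    (f : (j : Fin r) → (Fin (dd j + 1) → ℤ)) (v X x : ℕ) (ε : ℝ)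
    (hs : |((((Icc 1 X).filter (fun n : ℕ => ∀ p ∈ pz v, ¬ (p : ℤ) ∣ (qq G P f).eval (n : ℤ))).card : ℕ) : ℝ) -
      X * Dn (qq G P f) v| ≤ ε * (X * Dn (qq G P f) v) + √(x : ℝ)) :
    |∑ n ∈ Icc 1 X, MM (lz v) (fun j t => (P j).eval t) f (TT G n) - X * CC (qq G P f) (kk G) v| ≤
      ε * (X * CC (qq G P f) (kk G) v) + (Vz v)⁻¹ ^ kk G * (√(x : ℝ) + CG dd D) := by
  have h1 := sum_model hG P f v X
  have hV0 : 0 ≤ (Vz v)⁻¹ ^ kk G := pow_nonneg (inv_pos.2 (Vz_pos v)).le _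
  obtain ⟨N, hN⟩ : ∃ N : ℝ, N = ((((Icc 1 X).filter (fun n : ℕ => ∀ p ∈ pz v, ¬ (p : ℤ) ∣ (qq G P f).eval (n : ℤ))).card : ℕ) : ℝ) := ⟨_, rfl⟩
  rw [← hN] at hs h1
  have h2 : |(Vz v)⁻¹ ^ kk G * N - X * CC (qq G P f) (kk G) v| ≤
      ε * (X * CC (qq G P f) (kk G) v) + (Vz v)⁻¹ ^ kk G * √(x : ℝ) := by
    have e1 : (Vz v)⁻¹ ^ kk G * N - X * CC (qq G P f) (kk G) v = (Vz v)⁻¹ ^ kk G * (N - X * Dn (qq G P f) v) := by
      unfold CC; ring
    rw [e1, abs_mul, abs_of_nonneg hV0]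
    refine (mul_le_mul_of_nonneg_left hs hV0).trans (le_of_eq ?_)
    unfold CC
    ring
  refine (abs_sub_le _ _ _).trans ((add_le_add h1 h2).trans (le_of_eq ?_))
  ring

lemma num1 (Cv Cy S T U ε1 x1 δ : ℝ) (hε0 : 0 < ε1) (hε1 : ε1 ≤ 1 / 20) (hx : 0 < x1) (_hCv : 0 ≤ Cv) (_hCy : 0 ≤ Cy)
    (hδ : δ ≤ Cy) (hST : |S - T| ≤ ε1 * (x1 * δ)) (hS : |S - x1 * Cv| ≤ ε1 * (x1 * Cv) + U) (hT : |T - x1 * Cy| ≤ ε1 * (x1 * Cy) + U)
    (hU : U ≤ ε1 * (x1 * δ)) : |Cv - Cy| ≤ 10 * ε1 * Cy := by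
  have h1 : x1 * |Cv - Cy| ≤ ε1 * (x1 * Cv) + ε1 * (x1 * Cy) + 3 * (ε1 * (x1 * δ)) := by
    have e1 : x1 * |Cv - Cy| = |x1 * Cv - x1 * Cy| := by
      rw [← mul_sub, abs_mul, abs_of_pos hx]
    rw [e1, abs_le]
    rw [abs_le] at hST hS hT
    constructor <;> linarith [hST.1, hST.2, hS.1, hS.2, hT.1, hT.2]
  have h2 : |Cv - Cy| ≤ ε1 * Cv + ε1 * Cy + 3 * (ε1 * δ) := by
    have h3 : x1 * |Cv - Cy| ≤ x1 * (ε1 * Cv + ε1 * Cy + 3 * (ε1 * δ)) := by linarith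
    exact le_of_mul_le_mul_left h3 hx
  have h3 : ε1 * δ ≤ ε1 * Cy := by gcongr
  have h4 : Cv ≤ Cy + |Cv - Cy| := by linarith [le_abs_self (Cv - Cy)]
  have h5 : ε1 * Cv ≤ ε1 * Cy + ε1 * |Cv - Cy| := by
    rw [← mul_add]
    exact mul_le_mul_of_nonneg_left h4 hε0.le
  have h6 : ε1 * |Cv - Cy| ≤ 1 / 20 * |Cv - Cy| := mul_le_mul_of_nonneg_right hε1 (abs_nonneg _)
  nlinarith [abs_nonneg (Cv - Cy)]

lemma num2 (Cz Cu Cv Cy R ε1 : ℝ) (hε0 : 0 < ε1) (hε1 : ε1 ≤ 1 / 20) (hCy : 0 ≤ Cy) (_hR1 : 1 ≤ R) (hR : R ≤ 1 + 4 * ε1)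
    (hCz : 0 ≤ Cz) (hCu : 0 ≤ Cu) (hu : |Cu - Cy| ≤ 10 * ε1 * Cy) (hv : |Cv - Cy| ≤ 10 * ε1 * Cy) (h1 : Cz ≤ R * Cu) (h2 : Cv ≤ R * Cz) :
    |Cz - Cy| ≤ 20 * ε1 * Cy := by
  rw [abs_le] at hu hv ⊢
  have hu1 : Cu ≤ (1 + 10 * ε1) * Cy := by linarith [hu.2]
  have hv1 : (1 - 10 * ε1) * Cy ≤ Cv := by linarith [hv.1]
  constructor
  · have h3 : (1 - 10 * ε1) * Cy ≤ (1 + 4 * ε1) * Cz := (hv1.trans h2).trans (mul_le_mul_of_nonneg_right hR hCz)
    by_contra hcon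
    push Not at hcon
    have h4 : Cz < (1 - 20 * ε1) * Cy := by linarith
    have h5 : (1 + 4 * ε1) * Cz < (1 + 4 * ε1) * ((1 - 20 * ε1) * Cy) := mul_lt_mul_of_pos_left h4 (by linarith)
    have h6 : (1 + 4 * ε1) * ((1 - 20 * ε1) * Cy) ≤ (1 - 10 * ε1) * Cy := by nlinarith [mul_nonneg hε0.le hCy, mul_nonneg (mul_nonneg hε0.le hε0.le) hCy]
    linarith
  · have h3 : Cz ≤ (1 + 4 * ε1) * ((1 + 10 * ε1) * Cy) :=
      h1.trans (mul_le_mul hR hu1 hCu (by linarith))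
    have h4 : ε1 * (ε1 * Cy) ≤ 1 / 20 * (ε1 * Cy) := mul_le_mul_of_nonneg_right hε1 (by positivity)
    nlinarith

theorem CZ (r : ℕ) (dd : Fin r → ℕ) (D A : ℕ) (hdd : ∀ j, 1 ≤ dd j) (ε e e' : ℝ) (hε : 0 < ε) (he : 0 < e) (he' : 0 < e') :
    ∃ H0 : ℕ, ∀ H : ℕ, H0 ≤ H → ∀ y : ℕ, Real.log H ^ e ≤ y → (y : ℝ) ≤ Real.log H ^ A →
    ∀ (P : Fin r → ℤ[X]) (G : Fin r → Finset ℤ[X]), GOK dd D G → Small H A D P G →
    (open Classical in (((Om dd H).filter (fun f => ¬ ∀ z : ℕ, y ≤ z → (z : ℝ) ≤ Real.log H ^ A →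
      |CC (qq G P f) (kk G) z - CC (qq G P f) (kk G) y| ≤ ε * CC (qq G P f) (kk G) y)).card : ℝ)) ≤
      NN dd H * (Real.log H ^ e' / y) := by
  classical
  obtain ⟨km, hkm⟩ : ∃ km, km = ∑ j, dd j := ⟨_, rfl⟩
  obtain ⟨c, hc⟩ : ∃ c, c = cdeg dd D + 1 := ⟨_, rfl⟩
  obtain ⟨ε1, hε1d⟩ : ∃ ε1 : ℝ, ε1 = min (ε / 20) (1 / 20) := ⟨_, rfl⟩
  have hε10 : 0 < ε1 := by rw [hε1d]; positivity
  have hε1a : ε1 ≤ 1 / 20 := by rw [hε1d]; exact min_le_right _ _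
  have hε1b : 20 * ε1 ≤ ε := by
    have : ε1 ≤ ε / 20 := by rw [hε1d]; exact min_le_left _ _
    linarith
  obtain ⟨ε3, hε3d⟩ : ∃ ε3 : ℝ, ε3 = ε1 / (km + 1) := ⟨_, rfl⟩
  have hε30 : 0 < ε3 := by rw [hε3d]; positivity
  have hε3a : ε3 ≤ 1 / 20 := by
    rw [hε3d]
    refine (div_le_self hε10.le ?_).trans hε1a
    have : (0 : ℝ) ≤ km := Nat.cast_nonneg _
    linarith
  obtain ⟨e3, he3d⟩ : ∃ e3 : ℝ, e3 = min (e' / 8) 1 := ⟨_, rfl⟩
  have he30 : 0 < e3 := by rw [he3d]; positivity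
  have he3a : e3 ≤ e' / 8 := by rw [he3d]; exact min_le_left _ _
  have he3b : e3 ≤ 1 := by rw [he3d]; exact min_le_right _ _
  obtain ⟨K, y0, hK, hsv⟩ := sieve_poly c ε1 hε10
  obtain ⟨κ, hκ0, hDl⟩ := Dn_lower c (by omega)
  obtain ⟨B, hB⟩ : ∃ B, B = K * (A + 1) + 2 * km + A + 6 := ⟨_, rfl⟩
  obtain ⟨n0, h0⟩ := SM r dd D A B hdd e (e' / 4) he (by positivity)
  obtain ⟨n1, h1⟩ := Vz_inv_small (A + 1)
  obtain ⟨n2, h2⟩ := ev_L' (max (max 3 (2 / ε1)) (max (CG dd D) 4))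
  obtain ⟨n3, h3⟩ := ev_rpow (max (1 / ε3) y0) e he
  obtain ⟨n4, h4⟩ := grid_len A ε3 (e' / 8) hε30 (by positivity)
  obtain ⟨n5, h5⟩ := ev_rpow (2 / ε1 ^ 2) (3 * e' / 8) (by positivity)
  have hc0' : (0 : ℝ) < c := by exact_mod_cast (by omega : 0 < c)
  obtain ⟨n6, h6⟩ := Vz_small (A + 1) (e3 / (4 * c)) (by positivity)
  obtain ⟨n7, h7⟩ := ev_rpow (1 / κ) (e3 / 2) (by positivity)
  refine ⟨max (max (max n0 n1) (max n2 n3)) (max (max n4 n5) (max n6 n7)), fun H hH y hy1 hy2 P G hG hS => ?_⟩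
  have hn0 : n0 ≤ H := (((le_max_left _ _).trans (le_max_left _ _)).trans (le_max_left _ _)).trans hH
  have hn1 : n1 ≤ H := (((le_max_right _ _).trans (le_max_left _ _)).trans (le_max_left _ _)).trans hH
  have hn2 : n2 ≤ H := (((le_max_left _ _).trans (le_max_right _ _)).trans (le_max_left _ _)).trans hH
  have hn3 : n3 ≤ H := (((le_max_right _ _).trans (le_max_right _ _)).trans (le_max_left _ _)).trans hH
  have hn4 : n4 ≤ H := (((le_max_left _ _).trans (le_max_left _ _)).trans (le_max_right _ _)).trans hH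
  have hn5 : n5 ≤ H := (((le_max_right _ _).trans (le_max_left _ _)).trans (le_max_right _ _)).trans hH
  have hn6 : n6 ≤ H := (((le_max_left _ _).trans (le_max_right _ _)).trans (le_max_right _ _)).trans hH
  have hn7 : n7 ≤ H := (((le_max_right _ _).trans (le_max_right _ _)).trans (le_max_right _ _)).trans hH
  have hLm := h2 H hn2
  obtain ⟨L, hLd⟩ : ∃ L, L = Real.log H := ⟨_, rfl⟩
  have a3 := h3 H hn3
  have a5 := h5 H hn5
  have a7 := h7 H hn7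
  obtain ⟨M, hM1, hM2⟩ := h4 H hn4
  rw [← hLd] at hLm a3 a5 a7 hM1 hM2 hy1 hy2 ⊢
  have hL3 : 3 ≤ L := ((le_max_left _ _).trans (le_max_left _ _)).trans hLm
  have hLε : 2 / ε1 ≤ L := ((le_max_right _ _).trans (le_max_left _ _)).trans hLm
  have hLCG : (CG dd D : ℝ) ≤ L := ((le_max_left _ _).trans (le_max_right _ _)).trans hLm
  have hL0 : 0 < L := by linarith
  have hL1 : 1 ≤ L := by linarith
  have hy3 : 1 / ε3 ≤ y := ((le_max_left _ _).trans a3).trans hy1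
  have hyy0 : y0 ≤ y := by
    have : (y0 : ℝ) ≤ y := ((le_max_right _ _).trans a3).trans hy1
    exact_mod_cast this
  have hyr : (1 : ℝ) ≤ y := (Real.one_le_rpow hL1 he.le).trans hy1
  have hyn : 1 ≤ y := by exact_mod_cast hyr
  have hy0' : (0 : ℝ) < y := by linarith
  have hkk : kk G ≤ km := by rw [hkm]; exact sum_le_sum fun j _ => hG.card j
  -- `x1`
  obtain ⟨x1, hx1⟩ : ∃ x1 : ℕ, x1 = ⌊L ^ B⌋₊ := ⟨_, rfl⟩
  have hx1a : (x1 : ℝ) ≤ L ^ B := by rw [hx1]; exact Nat.floor_le (by positivity)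
  have hx1b : L ^ (B - 1) ≤ x1 := by
    have h8 : L ^ B < x1 + 1 := by rw [hx1]; exact Nat.lt_floor_add_one _
    have h9 : L ^ B = L ^ (B - 1) * L := by rw [← pow_succ]; congr 1; omega
    have h10 : 1 ≤ L ^ (B - 1) := one_le_pow₀ hL1
    nlinarith
  have hx1p : (0 : ℝ) < x1 := lt_of_lt_of_le (by positivity) hx1b
  -- the second moments
  have hdeg : ∀ f : (j : Fin r) → (Fin (dd j + 1) → ℤ), (qq G P f).natDegree ≤ c := fun f => by
    rw [hc]; exact (qq_deg hG P hS.degP f).trans (Nat.le_succ _)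
  obtain ⟨S, hSd⟩ : ∃ S : ℕ → ((j : Fin r) → (Fin (dd j + 1) → ℤ)) → ℝ, S = fun v f =>
    ∑ n ∈ Icc 1 x1, (MM (lz v) (fun j t => (P j).eval t) f (TT G n) - MM (lz y) (fun j t => (P j).eval t) f (TT G n)) := ⟨_, rfl⟩
  have hbad : ∀ v : ℕ, y ≤ v → (v : ℝ) ≤ L ^ (A + 1) →
      (((Om dd H).filter (fun f => ε1 * (x1 * L ^ (-e3)) < |S v f|)).card : ℝ) ≤ NN dd H * ((2 / ε1 ^ 2) * L ^ (e' / 2) / y) := by
    intro v hv1 hv2
    have hm := h0 H hn0 y (by rw [← hLd]; exact hy1) (by rw [← hLd]; exact hy2.trans (pow_le_pow_right₀ hL1 (by omega))) P G hG hS x1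
      (by rw [← hLd]; exact hx1a) (lz v) (Or.inr ⟨v, hv1, by rw [← hLd]; exact hv2.trans (pow_le_pow_right₀ hL1 (by rw [hB]; nlinarith)), rfl⟩)
    rw [← hLd] at hm
    have hm' : ∑ f ∈ Om dd H, S v f ^ 2 ≤ NN dd H * (L ^ (e' / 4) * ((x1 : ℝ) ^ 2 / y + x1 * L ^ kk G)) := by
      rw [hSd]; exact hm
    refine (cheb (Om dd H) (S v) _ (ε1 * (x1 * L ^ (-e3))) (by positivity) hm').trans ?_
    have h8 : (x1 : ℝ) * L ^ kk G ≤ (x1 : ℝ) ^ 2 / y := by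
      rw [le_div_iff₀ hy0']
      have h9 : L ^ kk G * y ≤ x1 := by
        calc L ^ kk G * y ≤ L ^ km * L ^ A := mul_le_mul (pow_le_pow_right₀ hL1 hkk) hy2 hy0'.le (by positivity)
          _ = L ^ (km + A) := (pow_add _ _ _).symm
          _ ≤ L ^ (B - 1) := pow_le_pow_right₀ hL1 (by omega)
          _ ≤ x1 := hx1b
      calc (x1 : ℝ) * L ^ kk G * y = x1 * (L ^ kk G * y) := by ring
        _ ≤ x1 * x1 := by gcongr
        _ = (x1 : ℝ) ^ 2 := by ring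
    rw [div_le_iff₀ (by positivity)]
    have hNN := NN_pos dd H
    have h10 : L ^ (e' / 4) * L ^ (2 * e3) ≤ L ^ (e' / 2) := by
      rw [← Real.rpow_add hL0]
      apply Real.rpow_le_rpow_of_exponent_le hL1
      linarith
    have h11 : (L ^ (-e3)) ^ 2 * L ^ (2 * e3) = 1 := by
      rw [← Real.rpow_natCast, ← Real.rpow_mul hL0.le, ← Real.rpow_add hL0]
      norm_num
      have : -(e3 * 2) + 2 * e3 = 0 := by ring
      rw [this, Real.rpow_zero]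
    calc NN dd H * (L ^ (e' / 4) * ((x1 : ℝ) ^ 2 / y + x1 * L ^ kk G)) ≤ NN dd H * (L ^ (e' / 4) * ((x1 : ℝ) ^ 2 / y + (x1 : ℝ) ^ 2 / y)) := by gcongr
      _ = NN dd H * (2 * (x1 : ℝ) ^ 2 / y) * (L ^ (e' / 4) * ((L ^ (-e3)) ^ 2 * L ^ (2 * e3))) := by rw [h11]; ring
      _ = NN dd H * (2 * (x1 : ℝ) ^ 2 / y) * (L ^ (-e3)) ^ 2 * (L ^ (e' / 4) * L ^ (2 * e3)) := by ring
      _ ≤ NN dd H * (2 * (x1 : ℝ) ^ 2 / y) * (L ^ (-e3)) ^ 2 * L ^ (e' / 2) := by gcongr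
      _ = NN dd H * ((2 / ε1 ^ 2) * L ^ (e' / 2) / y) * (ε1 * (x1 * L ^ (-e3))) ^ 2 := by
          field_simp
  -- the union
  obtain ⟨I, hI⟩ : ∃ I : Finset ℕ, I = (range (M + 2)).filter (fun i => (gp y ε3 i : ℝ) ≤ L ^ (A + 1)) := ⟨_, rfl⟩
  have hgpy : ∀ i, y ≤ gp y ε3 i := by
    intro i
    have h8 : (y : ℝ) ≤ gp y ε3 i := by
      refine le_trans ?_ (Nat.le_ceil _)
      have : 1 ≤ (1 + ε3) ^ i := one_le_pow₀ (by linarith)
      nlinarith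
    exact_mod_cast h8
  have hsub : (Om dd H).filter (fun f => ¬ ∀ z : ℕ, y ≤ z → (z : ℝ) ≤ L ^ A →
      |CC (qq G P f) (kk G) z - CC (qq G P f) (kk G) y| ≤ ε * CC (qq G P f) (kk G) y) ⊆
      I.biUnion (fun i => (Om dd H).filter (fun f => ε1 * (x1 * L ^ (-e3)) < |S (gp y ε3 i) f|)) := by
    intro f hf
    rw [mem_filter] at hf
    by_contra hcon
    apply hf.2
    intro z hz1 hz2
    have hgood : ∀ i ∈ I, |S (gp y ε3 i) f| ≤ ε1 * (x1 * L ^ (-e3)) := by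
      intro i hi
      by_contra h8
      push Not at h8
      apply hcon
      rw [mem_biUnion]
      exact ⟨i, hi, by rw [mem_filter]; exact ⟨hf.1, h8⟩⟩
    obtain ⟨q, hq⟩ : ∃ q, q = qq G P f := ⟨_, rfl⟩
    rw [← hq]
    have hCy0 := CC_nonneg q (kk G) y
    -- the case of a fixed divisor
    by_cases hDy : Dn q y = 0
    · have h8 : Dn q z = 0 := le_antisymm ((Dn_anti q hz1).trans hDy.le) (Dn_nonneg q z)
      unfold CC
      rw [h8, hDy]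
      simp
    have hCyL : L ^ (-e3) ≤ CC q (kk G) y := by
      have h8 := hDl q (by rw [hq]; exact hdeg f) y hDy
      have hVy1 : 1 ≤ (Vz y)⁻¹ := (one_le_inv₀ (Vz_pos _)).2 (Vz_le_one y)
      have h9 : Dn q y ≤ CC q (kk G) y := by
        unfold CC
        exact le_mul_of_one_le_right (Dn_nonneg q y) (one_le_pow₀ hVy1)
      have h10 := h6 H hn6 y hyn (by rw [← hLd]; exact hy2.trans (pow_le_pow_right₀ hL1 (by omega)))
      rw [← hLd] at h10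
      have hc0 : (0 : ℝ) < c := by exact_mod_cast (by omega : 0 < c)
      have h11 : (Vz y)⁻¹ ^ (2 * c) ≤ L ^ (e3 / 2) := by
        calc (Vz y)⁻¹ ^ (2 * c) ≤ (L ^ (e3 / (4 * c))) ^ (2 * c) := pow_le_pow_left₀ (by linarith) h10 _
          _ = L ^ (e3 / 2) := by
              rw [← Real.rpow_natCast, ← Real.rpow_mul hL0.le]
              congr 1
              push_cast
              field_simp
              norm_num
      have h12 : L ^ (-(e3 / 2)) ≤ Vz y ^ (2 * c) := by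
        rw [Real.rpow_neg hL0.le, inv_le_comm₀ (by positivity) (pow_pos (Vz_pos y) _), ← inv_pow]
        exact h11
      have h13 : L ^ (-(e3 / 2)) ≤ κ := by
        rw [Real.rpow_neg hL0.le, inv_le_comm₀ (by positivity) hκ0, ← one_div]
        exact a7
      calc L ^ (-e3) = L ^ (-(e3 / 2)) * L ^ (-(e3 / 2)) := by rw [← Real.rpow_add hL0]; congr 1; ring
        _ ≤ κ * Vz y ^ (2 * c) := mul_le_mul h13 h12 (by positivity) hκ0.le
        _ ≤ Dn q y := h8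
        _ ≤ _ := h9
    -- the error of the sieve
    have hU : ∀ v : ℕ, 1 ≤ v → (v : ℝ) ≤ L ^ (A + 1) → (Vz v)⁻¹ ^ kk G * (√(x1 : ℝ) + CG dd D) ≤ ε1 * (x1 * L ^ (-e3)) := by
      intro v hv1 hv2
      have h8 := h1 H hn1 v hv1 (by rw [← hLd]; exact hv2)
      rw [← hLd] at h8
      have hVv1 : 1 ≤ (Vz v)⁻¹ := (one_le_inv₀ (Vz_pos _)).2 (Vz_le_one v)
      have h9 : (Vz v)⁻¹ ^ kk G ≤ L ^ km := (pow_le_pow_left₀ (by linarith) h8 _).trans (pow_le_pow_right₀ hL1 hkk)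
      have h10 : L ^ (km + 2) ≤ √(x1 : ℝ) := by
        apply Real.le_sqrt_of_sq_le
        calc (L ^ (km + 2)) ^ 2 = L ^ (2 * km + 4) := by rw [← pow_mul]; congr 1; ring
          _ ≤ L ^ (B - 1) := pow_le_pow_right₀ hL1 (by omega)
          _ ≤ x1 := hx1b
      have h11 : (CG dd D : ℝ) ≤ √(x1 : ℝ) := by
        refine (hLCG.trans ?_).trans h10
        exact le_self_pow₀ hL1 (by omega)
      have h12 : √(x1 : ℝ) * √(x1 : ℝ) = x1 := Real.mul_self_sqrt hx1p.le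
      have h13 : L ^ (-(1 : ℝ)) ≤ L ^ (-e3) := Real.rpow_le_rpow_of_exponent_le hL1 (by linarith)
      have h14 : L ^ (-(1 : ℝ)) = L⁻¹ := by rw [Real.rpow_neg hL0.le, Real.rpow_one]
      have h15 : 2 ≤ ε1 * L := by
        rw [div_le_iff₀ hε10] at hLε
        linarith
      have hs0 : 0 ≤ √(x1 : ℝ) := Real.sqrt_nonneg _
      calc (Vz v)⁻¹ ^ kk G * (√(x1 : ℝ) + CG dd D) ≤ L ^ km * (√(x1 : ℝ) + √(x1 : ℝ)) := by gcongr
        _ = 2 * (L ^ km * √(x1 : ℝ)) := by ring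
        _ ≤ (ε1 * L) * (L ^ km * √(x1 : ℝ)) := by gcongr
        _ = ε1 * (L ^ (km + 2) * √(x1 : ℝ)) * L⁻¹ := by
            rw [pow_add]
            field_simp
        _ ≤ ε1 * (√(x1 : ℝ) * √(x1 : ℝ)) * L⁻¹ := by gcongr
        _ = ε1 * (x1 * L ^ (-(1 : ℝ))) := by rw [h12, h14]; ring
        _ ≤ ε1 * (x1 * L ^ (-e3)) := by gcongr
    have hpt : ∀ v : ℕ, y ≤ v → (v : ℝ) ≤ L ^ (A + 1) → |S v f| ≤ ε1 * (x1 * L ^ (-e3)) →
        |CC q (kk G) v - CC q (kk G) y| ≤ 10 * ε1 * CC q (kk G) y := by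
      intro v hv1 hv2 hSv
      have hsvx : ∀ u : ℕ, y ≤ u → (u : ℝ) ≤ L ^ (A + 1) →
          |∑ n ∈ Icc 1 x1, MM (lz u) (fun j t => (P j).eval t) f (TT G n) - x1 * CC (qq G P f) (kk G) u| ≤
          ε1 * (x1 * CC (qq G P f) (kk G) u) + ε1 * (x1 * L ^ (-e3)) := by
        intro u hu1 hu2
        have h8 : u ^ K ≤ x1 := by
          have h9 : ((u ^ K : ℕ) : ℝ) ≤ x1 := by
            push_cast
            calc (u : ℝ) ^ K ≤ (L ^ (A + 1)) ^ K := pow_le_pow_left₀ (Nat.cast_nonneg u) hu2 K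
              _ = L ^ (K * (A + 1)) := by rw [← pow_mul]; congr 1; ring
              _ ≤ L ^ (B - 1) := pow_le_pow_right₀ hL1 (by omega)
              _ ≤ x1 := hx1b
          exact_mod_cast h9
        have h9 := hsv x1 u (hyy0.trans hu1) h8 (qq G P f) (hdeg f) x1
        exact (model_sieve hG P f u x1 x1 ε1 h9).trans (add_le_add le_rfl (hU u (hyn.trans hu1) hu2))
      have hy2' : (y : ℝ) ≤ L ^ (A + 1) := hy2.trans (pow_le_pow_right₀ hL1 (by omega))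
      have e1 : S v f = ∑ n ∈ Icc 1 x1, MM (lz v) (fun j t => (P j).eval t) f (TT G n) -
          ∑ n ∈ Icc 1 x1, MM (lz y) (fun j t => (P j).eval t) f (TT G n) := by
        rw [hSd]
        simp only [sum_sub_distrib]
      rw [e1] at hSv
      have h9 := hsvx v hv1 hv2
      have h10 := hsvx y le_rfl hy2'
      rw [← hq] at h9 h10
      exact num1 _ _ _ _ _ ε1 x1 (L ^ (-e3)) hε10 hε1a hx1p (CC_nonneg _ _ _) hCy0 hCyL hSv h9 h10 le_rfl
    obtain ⟨i, hi1, hi2, hi3, hi4, _⟩ := gp_grid y ε3 hyr hε30 (by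
      rw [div_le_iff₀ hε30] at hy3
      exact hy3) z (by exact_mod_cast hz1)
    have hiM : i ≤ M := hM2 i (hi4.trans hz2)
    have hb1 : (gp y ε3 i : ℝ) ≤ L ^ (A + 1) := by
      have : (gp y ε3 i : ℝ) ≤ z := by exact_mod_cast hi1
      exact (this.trans hz2).trans (pow_le_pow_right₀ hL1 (by omega))
    have hb2 : (gp y ε3 (i + 1) : ℝ) ≤ L ^ (A + 1) := by
      have h8 : (gp y ε3 i : ℝ) ≤ z := by exact_mod_cast hi1
      calc (gp y ε3 (i + 1) : ℝ) ≤ (1 + 2 * ε3) * gp y ε3 i := hi3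
        _ ≤ L * L ^ A := by
            apply mul_le_mul (by linarith) (h8.trans hz2) (Nat.cast_nonneg _) hL0.le
        _ = L ^ (A + 1) := by rw [pow_succ]; ring
    have hI1 : i ∈ I := by rw [hI, mem_filter, mem_range]; exact ⟨by omega, hb1⟩
    have hI2 : i + 1 ∈ I := by rw [hI, mem_filter, mem_range]; exact ⟨by omega, hb2⟩
    have hp1 := hpt _ (hgpy i) hb1 (hgood i hI1)
    have hp2 := hpt _ (hgpy (i + 1)) hb2 (hgood (i + 1) hI2)
    obtain ⟨hc1, hc2⟩ := CC_between q (kk G) (hyn.trans (hgpy i)) hi1 hi2 (1 + 2 * ε3) hi3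
    have hR1 : 1 ≤ (1 + 2 * ε3) ^ kk G := one_le_pow₀ (by linarith)
    have hR2 : (1 + 2 * ε3) ^ kk G ≤ 1 + 4 * ε1 := by
      have h8 : (1 + 2 * ε3) ^ kk G ≤ Real.exp (2 * ε1) := by
        calc (1 + 2 * ε3) ^ kk G ≤ (Real.exp (2 * ε3)) ^ kk G := by
              apply pow_le_pow_left₀ (by linarith)
              have := Real.add_one_le_exp (2 * ε3)
              linarith
          _ = Real.exp (kk G * (2 * ε3)) := by rw [Real.exp_nat_mul]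
          _ ≤ Real.exp (2 * ε1) := by
              apply Real.exp_le_exp.2
              have h9 : (kk G : ℝ) ≤ km + 1 := by
                have : (kk G : ℝ) ≤ km := by exact_mod_cast hkk
                linarith
              have h10 : (kk G : ℝ) * ε3 ≤ ε1 := by
                rw [hε3d, mul_div_assoc']
                rw [div_le_iff₀ (by positivity)]
                nlinarith
              linarith
      have h9 : Real.exp (2 * ε1) ≤ 1 + 4 * ε1 := by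
        have h10 := Real.abs_exp_sub_one_le (x := 2 * ε1) (by rw [abs_of_pos (by positivity)]; linarith)
        rw [abs_of_pos (by positivity : (0 : ℝ) < 2 * ε1)] at h10
        linarith [le_abs_self (Real.exp (2 * ε1) - 1)]
      exact h8.trans h9
    have hfin := num2 _ _ _ _ _ ε1 hε10 hε1a hCy0 hR1 hR2 (CC_nonneg q (kk G) z) (CC_nonneg q (kk G) _) hp1 hp2 hc1 hc2
    exact hfin.trans (mul_le_mul_of_nonneg_right hε1b hCy0)
  have hcard : (((Om dd H).filter (fun f => ¬ ∀ z : ℕ, y ≤ z → (z : ℝ) ≤ L ^ A →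
      |CC (qq G P f) (kk G) z - CC (qq G P f) (kk G) y| ≤ ε * CC (qq G P f) (kk G) y)).card : ℝ) ≤
      ∑ i ∈ I, (((Om dd H).filter (fun f => ε1 * (x1 * L ^ (-e3)) < |S (gp y ε3 i) f|)).card : ℝ) := by
    have := (card_le_card hsub).trans card_biUnion_le
    exact_mod_cast this
  refine hcard.trans ?_
  have hNN := NN_pos dd H
  have hIc : (I.card : ℝ) ≤ L ^ (e' / 8) := by
    have h8 : I.card ≤ M + 2 := by
      rw [hI]
      refine (card_filter_le _ _).trans ?_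
      rw [card_range]
    have h9 : (I.card : ℝ) ≤ M + 2 := by exact_mod_cast h8
    exact h9.trans hM1
  calc ∑ i ∈ I, (((Om dd H).filter (fun f => ε1 * (x1 * L ^ (-e3)) < |S (gp y ε3 i) f|)).card : ℝ)
      ≤ ∑ _i ∈ I, NN dd H * ((2 / ε1 ^ 2) * L ^ (e' / 2) / y) := by
        apply sum_le_sum
        intro i hi
        rw [hI, mem_filter] at hi
        exact hbad _ (hgpy i) hi.2
    _ = (I.card : ℝ) * (NN dd H * ((2 / ε1 ^ 2) * L ^ (e' / 2) / y)) := by rw [sum_const, nsmul_eq_mul]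
    _ ≤ L ^ (e' / 8) * (NN dd H * (L ^ (3 * e' / 8) * L ^ (e' / 2) / y)) := by gcongr
    _ = NN dd H * ((L ^ (e' / 8) * L ^ (3 * e' / 8) * L ^ (e' / 2)) / y) := by ring
    _ = NN dd H * (L ^ e' / y) := by
        rw [← Real.rpow_add hL0, ← Real.rpow_add hL0]
        congr 3
        ring

end Pool.Agent.T9h23.BH
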