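import Mathlib
import Pool.Agent.T9h23.BH.A3

/-! For almost all systems the values are large and never proper prime powers. -/

set_option autoImplicit false

namespace Pool.Agent.T9h23.BH
open Finset Polynomial
open Pool.Agent.H373R2.T7
open Pool.Agent.T9h23.Cor

lemma card_one {r : ℕ} (dd : Fin r → ℕ) (H : ℕ) (j : Fin r) (p : (Fin (dd j + 1) → ℤ) → Prop) [DecidablePred p] (η : ℝ)
    (hη : ((((Box (dd j + 1) H).filter p).card : ℕ) : ℝ) ≤ (2 * H + 1) ^ (dd j + 1) * η) :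
    ((((Om dd H).filter (fun f => p (f j))).card : ℕ) : ℝ) ≤ NN dd H * η := by
  classical
  have hsub : (Om dd H).filter (fun f => p (f j)) ⊆
      Fintype.piFinset (Function.update (fun i => Box (dd i + 1) H) j ((Box (dd j + 1) H).filter p)) := by
    intro f hf
    rw [mem_filter] at hf
    unfold Om at hf
    rw [Fintype.mem_piFinset] at hf ⊢
    intro i
    by_cases h : i = j
    · subst h
      rw [Function.update_self, mem_filter]
      exact ⟨hf.1 i, hf.2⟩
    · rw [Function.update_of_ne h]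
      exact hf.1 i
  have h1 : (((Om dd H).filter (fun f => p (f j))).card : ℝ) ≤
      ∏ i, (((Function.update (fun i => Box (dd i + 1) H) j ((Box (dd j + 1) H).filter p)) i).card : ℝ) := by
    have := card_le_card hsub
    rw [Fintype.card_piFinset] at this
    exact_mod_cast this
  refine h1.trans ?_
  have e1 : ∀ i, (((Function.update (fun i => Box (dd i + 1) H) j ((Box (dd j + 1) H).filter p)) i).card : ℝ) =
      (Function.update (fun i => (2 * (H : ℝ) + 1) ^ (dd i + 1)) j ((((Box (dd j + 1) H).filter p).card : ℕ) : ℝ)) i := by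
    intro i
    by_cases h : i = j
    · subst h
      rw [Function.update_self, Function.update_self]
    · rw [Function.update_of_ne h, Function.update_of_ne h, card_Box]
      push_cast
      rfl
  rw [prod_congr rfl fun i _ => e1 i, prod_update_of_mem (mem_univ j)]
  have e2 : NN dd H = (2 * (H : ℝ) + 1) ^ (dd j + 1) * ∏ i ∈ univ \ {j}, (2 * (H : ℝ) + 1) ^ (dd i + 1) := by
    unfold NN
    rw [← prod_sdiff (subset_univ {j}), prod_singleton, mul_comm]
  rw [e2]
  have h0 : 0 ≤ ∏ i ∈ univ \ {j}, (2 * (H : ℝ) + 1) ^ (dd i + 1) := prod_nonneg fun _ _ => by positivity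
  calc _ ≤ ((2 * (H : ℝ) + 1) ^ (dd j + 1) * η) * ∏ i ∈ univ \ {j}, (2 * (H : ℝ) + 1) ^ (dd i + 1) :=
        mul_le_mul_of_nonneg_right hη h0
    _ = _ := by ring

/-- the number of proper prime powers -/
lemma card_pp (X : ℕ) (hX : 1 ≤ X) :
    ((((Icc 1 X).filter (fun n : ℕ => ¬ n.Prime ∧ ArithmeticFunction.vonMangoldt n ≠ 0)).card : ℕ) : ℝ) ≤ 4 * √(X : ℝ) * Real.log X := by
  have hXr : (1 : ℝ) ≤ X := by exact_mod_cast hX
  have h1 := Chebyshev.psi_sub_theta_le (x := (X : ℝ)) hXr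
  rw [Chebyshev.psi_sub_theta_eq_sum_not_prime, Nat.floor_natCast] at h1
  have hl2 : 1 / 2 ≤ Real.log 2 := by have := Real.log_two_gt_d9; linarith
  have h2 : ∑ n ∈ (Icc 1 X).filter (fun n : ℕ => ¬ n.Prime ∧ ArithmeticFunction.vonMangoldt n ≠ 0), (1 / 2 : ℝ) ≤
      ∑ n ∈ (Ioc 0 X).filter (fun n : ℕ => ¬ n.Prime), ArithmeticFunction.vonMangoldt n := by
    calc ∑ n ∈ (Icc 1 X).filter (fun n : ℕ => ¬ n.Prime ∧ ArithmeticFunction.vonMangoldt n ≠ 0), (1 / 2 : ℝ)
        ≤ ∑ n ∈ (Icc 1 X).filter (fun n : ℕ => ¬ n.Prime ∧ ArithmeticFunction.vonMangoldt n ≠ 0), ArithmeticFunction.vonMangoldt n := by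
          apply sum_le_sum
          intro n hn
          rw [mem_filter] at hn
          have h3 := ArithmeticFunction.vonMangoldt_ne_zero_iff.1 hn.2.2
          rw [ArithmeticFunction.vonMangoldt_apply, if_pos h3]
          have h4 : n.minFac.Prime := Nat.minFac_prime (by
            intro h
            rw [h] at h3
            exact not_isPrimePow_one h3)
          refine hl2.trans (Real.log_le_log (by norm_num) ?_)
          exact_mod_cast h4.two_le
      _ ≤ _ := by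
          apply sum_le_sum_of_subset_of_nonneg
          · intro n hn
            rw [mem_filter, mem_Icc] at hn
            rw [mem_filter, mem_Ioc]
            exact ⟨⟨by omega, hn.1.2⟩, hn.2.1⟩
          · intro n _ _
            exact ArithmeticFunction.vonMangoldt_nonneg
  rw [sum_const, nsmul_eq_mul] at h2
  linarith

lemma card_small (H : ℕ) (v : ℤ) (Y : ℝ) (hY : 0 ≤ Y) :
    (open Classical in ((((Icc (-(H : ℤ)) H).filter (fun x : ℤ => |((x + v : ℤ) : ℝ)| < Y)).card : ℕ) : ℝ)) ≤ 2 * Y + 1 := by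
  classical
  obtain ⟨K, hK⟩ : ∃ K : ℤ, K = ⌈Y⌉ := ⟨_, rfl⟩
  have hK0 : 0 ≤ K := by rw [hK]; exact Int.ceil_nonneg hY
  have hK1 : (K : ℝ) ≤ Y + 1 := by rw [hK]; exact (Int.ceil_lt_add_one Y).le
  have hsub : (Icc (-(H : ℤ)) H).filter (fun x : ℤ => |((x + v : ℤ) : ℝ)| < Y) ⊆ Ioo (-K - v) (K - v) := by
    intro x hx
    rw [mem_filter] at hx
    have h1 : |((x + v : ℤ) : ℝ)| < K := lt_of_lt_of_le hx.2 (by rw [hK]; exact Int.le_ceil Y)
    have h2 : |x + v| < K := by exact_mod_cast h1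
    rw [abs_lt] at h2
    rw [mem_Ioo]
    constructor <;> linarith [h2.1, h2.2]
  rcases eq_or_lt_of_le hK0 with h0 | h0
  · have : (Icc (-(H : ℤ)) H).filter (fun x : ℤ => |((x + v : ℤ) : ℝ)| < Y) = ∅ := by
      apply subset_empty.1
      refine hsub.trans ?_
      rw [← h0]
      simp
    rw [this, card_empty, Nat.cast_zero]
    linarith
  · have h3 := card_le_card hsub
    rw [Int.card_Ioo] at h3
    have h4 : ((((Icc (-(H : ℤ)) H).filter (fun x : ℤ => |((x + v : ℤ) : ℝ)| < Y)).card : ℕ) : ℝ) ≤ ((K - v - (-K - v) - 1).toNat : ℝ) := by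
      exact_mod_cast h3
    have h5 : ((K - v - (-K - v) - 1).toNat : ℝ) = 2 * K - 1 := by
      have h6 : ((K - v - (-K - v) - 1).toNat : ℤ) = 2 * K - 1 := by
        rw [Int.toNat_of_nonneg (by linarith)]
        ring
      exact_mod_cast h6
    linarith

/-- the integers whose absolute value is a proper prime power -/
def PPow (u : ℤ) : Prop := ¬ u.natAbs.Prime ∧ Lam u ≠ 0

lemma card_ppow (H X : ℕ) (hX : 1 ≤ X) (v : ℤ) (hv : ∀ x ∈ Icc (-(H : ℤ)) H, |x + v| ≤ X) :
    (open Classical in ((((Icc (-(H : ℤ)) H).filter (fun x : ℤ => PPow (x + v))).card : ℕ) : ℝ)) ≤ 8 * √(X : ℝ) * Real.log X := by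
  classical
  obtain ⟨S, hS⟩ : ∃ S, S = (Icc 1 X).filter (fun n : ℕ => ¬ n.Prime ∧ ArithmeticFunction.vonMangoldt n ≠ 0) := ⟨_, rfl⟩
  have hsub : (Icc (-(H : ℤ)) H).filter (fun x : ℤ => PPow (x + v)) ⊆
      (S.image (fun n : ℕ => (n : ℤ) - v)) ∪ (S.image (fun n : ℕ => -(n : ℤ) - v)) := by
    intro x hx
    rw [mem_filter] at hx
    have h1 := hv x hx.1
    obtain ⟨h2, h3⟩ := hx.2
    have h4 : (x + v).natAbs ∈ S := by
      rw [hS, mem_filter, mem_Icc]
      refine ⟨⟨?_, ?_⟩, h2, h3⟩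
      · rw [Nat.one_le_iff_ne_zero]
        intro h5
        apply h3
        unfold Lam
        rw [h5]
        simp
      · rw [Int.abs_eq_natAbs] at h1
        exact_mod_cast h1
    rw [mem_union, mem_image, mem_image]
    rcases le_or_gt 0 (x + v) with h5 | h5
    · left
      exact ⟨_, h4, by omega⟩
    · right
      exact ⟨_, h4, by omega⟩
  have h1 := (card_le_card hsub).trans (card_union_le _ _)
  have h2 : (S.image (fun n : ℕ => (n : ℤ) - v)).card ≤ S.card := card_image_le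
  have h3 : (S.image (fun n : ℕ => -(n : ℤ) - v)).card ≤ S.card := card_image_le
  have h4 := card_pp X hX
  rw [← hS] at h4
  have h5 : ((((Icc (-(H : ℤ)) H).filter (fun x : ℤ => PPow (x + v))).card : ℕ) : ℝ) ≤ 2 * (S.card : ℝ) := by
    have : ((Icc (-(H : ℤ)) H).filter (fun x : ℤ => PPow (x + v))).card ≤ 2 * S.card := by omega
    exact_mod_cast this
  linarith

/-- the values at the points up to `(log H)^B` are large and no proper prime powers -/
def Tame {r : ℕ} {dd : Fin r → ℕ} (H B C : ℕ) (P : Fin r → ℤ[X]) (f : (j : Fin r) → (Fin (dd j + 1) → ℤ)) : Prop :=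
  ∀ j, ∀ t : ℤ, |(t : ℝ)| ≤ Real.log H ^ B → (H : ℝ) / Real.log H ^ C ≤ |((fv (fun t => (P j).eval t) (f j) t : ℤ) : ℝ)| ∧
    ¬ PPow (fv (fun t => (P j).eval t) (f j) t)

theorem tame_card (r : ℕ) (dd : Fin r → ℕ) (D A B Bt : ℕ) : ∃ C H0 : ℕ, ∀ H : ℕ, H0 ≤ H → ∀ P : Fin r → ℤ[X],
    (∀ j, (P j).natDegree ≤ D) → (∀ j i, |((P j).coeff i : ℝ)| ≤ H * Real.log H ^ A) →
    (open Classical in (((Om dd H).filter (fun f => ¬ Tame H B C P f)).card : ℝ)) ≤ NN dd H / Real.log H ^ Bt := by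
  classical
  obtain ⟨C, hC⟩ : ∃ C, C = B + Bt + 1 := ⟨_, rfl⟩
  obtain ⟨A3, hA3⟩ : ∃ A3, A3 = A + B * D + 1 + B := ⟨_, rfl⟩
  obtain ⟨km, hkm⟩ : ∃ km, km = ∑ j, dd j := ⟨_, rfl⟩
  obtain ⟨C2, hC2⟩ : ∃ C2, C2 = A3 * km + A3 + 1 := ⟨_, rfl⟩
  obtain ⟨n0, h0⟩ := ev_L' (max (max (D + 2) (2 * km + 3)) (27 * r + 1))
  obtain ⟨n1, h1⟩ := ev_log' (C2 + 1 + C) 32
  refine ⟨C, max n0 (max n1 4), fun H hH P hP1 hP2 => ?_⟩
  have hn0 : n0 ≤ H := (le_max_left _ _).trans hH
  have hn1 : n1 ≤ H := ((le_max_left _ _).trans (le_max_right _ _)).trans hH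
  have hH4 : 4 ≤ H := ((le_max_right _ _).trans (le_max_right _ _)).trans hH
  have hHr : (4 : ℝ) ≤ H := by exact_mod_cast hH4
  have hH0 : (0 : ℝ) < H := by linarith
  have hLm := h0 H hn0
  have a1 := h1 H hn1
  obtain ⟨L, hLd⟩ : ∃ L, L = Real.log H := ⟨_, rfl⟩
  rw [← hLd] at hLm a1 hP2 ⊢
  have hLD : (D : ℝ) + 2 ≤ L := ((le_max_left _ _).trans (le_max_left _ _)).trans hLm
  have hLk : 2 * (km : ℝ) + 3 ≤ L := ((le_max_right _ _).trans (le_max_left _ _)).trans hLm
  have hLr : 27 * (r : ℝ) + 1 ≤ L := (le_max_right _ _).trans hLm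
  have hk0 : (0 : ℝ) ≤ km := Nat.cast_nonneg _
  have hL3 : 3 ≤ L := by linarith
  have hL0 : 0 < L := by linarith
  have hL1 : 1 ≤ L := by linarith
  obtain ⟨T0, hT0⟩ : ∃ T0 : ℕ, T0 = ⌊L ^ B⌋₊ := ⟨_, rfl⟩
  have hT0a : (T0 : ℝ) ≤ L ^ B := by rw [hT0]; exact Nat.floor_le (by positivity)
  have hLB : 1 ≤ L ^ B := one_le_pow₀ hL1
  -- the values of the fixed polynomials
  have hPv : ∀ j, ∀ t : ℤ, |t| ≤ T0 → |(((P j).eval t : ℤ) : ℝ)| ≤ H * L ^ A3 := by
    intro j t ht
    have h2 : |(t : ℝ)| ≤ L ^ B := by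
      have : ((|t| : ℤ) : ℝ) ≤ ((T0 : ℤ) : ℝ) := by exact_mod_cast ht
      push_cast at this
      exact this.trans hT0a
    refine (eval_bound (P j) D (hP1 j) (H * L ^ A) (L ^ B) hLB (hP2 j) t h2).trans ?_
    calc ((D : ℝ) + 1) * (H * L ^ A * (L ^ B) ^ D) = H * (((D : ℝ) + 1) * (L ^ A * (L ^ B) ^ D)) := by ring
      _ ≤ H * (L * (L ^ A * (L ^ B) ^ D)) := by gcongr; linarith
      _ = H * L ^ (A + B * D + 1) := by rw [← pow_mul]; ring
      _ ≤ H * L ^ A3 := by
          apply mul_le_mul_of_nonneg_left _ hH0.le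
          exact pow_le_pow_right₀ hL1 (by omega)
  obtain ⟨X, hX⟩ : ∃ X : ℕ, X = ⌊(H : ℝ) * L ^ C2⌋₊ := ⟨_, rfl⟩
  have hXa : (X : ℝ) ≤ H * L ^ C2 := by rw [hX]; exact Nat.floor_le (by positivity)
  have hLC2 : 1 ≤ L ^ C2 := one_le_pow₀ hL1
  have hX1 : 1 ≤ X := by
    rw [hX]
    apply Nat.le_floor
    push_cast
    nlinarith
  have hX1r : (1 : ℝ) ≤ X := by exact_mod_cast hX1
  have hsqH : 0 < √(H : ℝ) := Real.sqrt_pos.2 hH0
  have hsqH2 : √(H : ℝ) * √(H : ℝ) = H := Real.mul_self_sqrt hH0.le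
  have hpow : L ^ (C2 + 1 + C) = L ^ C2 * L * L ^ C := by rw [pow_add, pow_add, pow_one]
  have hLCp : 0 < L ^ C := by positivity
  have hXH2 : (X : ℝ) ≤ H ^ 2 := by
    have h2 : L ^ C2 ≤ √(H : ℝ) := by
      have h3 : L ^ C2 ≤ L ^ (C2 + 1 + C) := pow_le_pow_right₀ hL1 (by omega)
      have h4 : 0 < L ^ (C2 + 1 + C) := by positivity
      linarith
    have h3 : √(H : ℝ) ≤ H := by
      rw [Real.sqrt_le_left hH0.le]; nlinarith
    nlinarith
  have hpp : 8 * √(X : ℝ) * Real.log X ≤ H / L ^ C := by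
    have h2 : Real.log X ≤ 2 * L := by
      have h3 := Real.log_le_log (by linarith) hXH2
      rw [Real.log_pow, ← hLd] at h3
      exact_mod_cast h3
    have h3 : √(X : ℝ) ≤ √(H : ℝ) * L ^ C2 := by
      rw [Real.sqrt_le_left (by positivity), mul_pow, Real.sq_sqrt hH0.le]
      calc (X : ℝ) ≤ H * L ^ C2 := hXa
        _ ≤ H * (L ^ C2) ^ 2 := by
            apply mul_le_mul_of_nonneg_left _ hH0.le
            exact le_self_pow₀ hLC2 (by norm_num)
    have h4 : 0 ≤ Real.log X := Real.log_natCast_nonneg X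
    rw [le_div_iff₀ hLCp]
    calc 8 * √(X : ℝ) * Real.log X * L ^ C ≤ 8 * (√(H : ℝ) * L ^ C2) * (2 * L) * L ^ C := by gcongr
      _ = √(H : ℝ) * (16 * L ^ (C2 + 1 + C)) := by rw [hpow]; ring
      _ ≤ √(H : ℝ) * √(H : ℝ) := by
          apply mul_le_mul_of_nonneg_left _ hsqH.le
          have h5 : 0 < L ^ (C2 + 1 + C) := by positivity
          linarith
      _ = H := hsqH2
  have h1LC : 1 ≤ (H : ℝ) / L ^ C := by
    rw [le_div_iff₀ hLCp, one_mul]
    have h3 : L ^ C ≤ L ^ (C2 + 1 + C) := pow_le_pow_right₀ hL1 (by omega)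
    have h4 : √(H : ℝ) ≤ H := by
      rw [Real.sqrt_le_left hH0.le]; nlinarith
    have h5 : 0 < L ^ (C2 + 1 + C) := by positivity
    linarith
  -- one point
  have hone : ∀ j, ∀ t : ℤ, |t| ≤ T0 → ((((Om dd H).filter (fun f => |((fv (fun t => (P j).eval t) (f j) t : ℤ) : ℝ)| < H / L ^ C ∨
      PPow (fv (fun t => (P j).eval t) (f j) t))).card : ℕ) : ℝ) ≤ NN dd H * (3 / L ^ C) := by
    intro j t ht
    apply card_one dd H j (fun g => |((fv (fun t => (P j).eval t) g t : ℤ) : ℝ)| < H / L ^ C ∨ PPow (fv (fun t => (P j).eval t) g t))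
    rw [card_filter, Nat.cast_sum, sum_Box_insert H 0]
    have hin : ∀ b ∈ Box (dd j) H, ∑ x ∈ Icc (-(H : ℤ)) H, (((if |((fv (fun t => (P j).eval t) ((0 : Fin (dd j + 1)).insertNth x b) t : ℤ) : ℝ)| < H / L ^ C ∨
        PPow (fv (fun t => (P j).eval t) ((0 : Fin (dd j + 1)).insertNth x b) t) then 1 else 0 : ℕ)) : ℝ) ≤ (2 * H + 1) * (3 / L ^ C) := by
      intro b hb
      rw [mem_Box] at hb
      obtain ⟨v, hv⟩ : ∃ v, v = cb (fun t => (P j).eval t) b t := ⟨_, rfl⟩
      have e1 : ∀ x : ℤ, fv (fun t => (P j).eval t) ((0 : Fin (dd j + 1)).insertNth x b) t = x + v := fun x => by rw [fv_insert, hv]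
      simp only [e1]
      rw [← Nat.cast_sum, ← card_filter]
      have hvX : ∀ x ∈ Icc (-(H : ℤ)) H, |x + v| ≤ X := by
        intro x hx
        rw [← e1 x]
        have hddk : dd j ≤ km := by rw [hkm]; exact single_le_sum (f := dd) (fun _ _ => Nat.zero_le _) (mem_univ j)
        have hddr : (dd j : ℝ) ≤ km := by exact_mod_cast hddk
        have h5 := fv_le H L A3 (d := dd j) (by linarith) T0 (hT0a.trans (pow_le_pow_right₀ hL1 (by omega))) (fun t => (P j).eval t) (hPv j)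
          ((0 : Fin (dd j + 1)).insertNth x b) (by
            intro i
            rw [mem_Icc] at hx
            have h0H : (0 : ℤ) ≤ H := by positivity
            refine Fin.cases ?_ (fun i => ?_) i
            · rw [Fin.insertNth_zero', Fin.cons_zero, abs_le]
              constructor <;> linarith [hx.1, hx.2]
            · rw [Fin.insertNth_zero', Fin.cons_succ]
              linarith [hb i]) t ht
        have h6 : (((fv (fun t => (P j).eval t) ((0 : Fin (dd j + 1)).insertNth x b) t).natAbs : ℕ) : ℝ) ≤ H * L ^ C2 := by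
          rw [Nat.cast_natAbs, Int.cast_abs]
          refine h5.trans ?_
          apply mul_le_mul_of_nonneg_left _ hH0.le
          apply pow_le_pow_right₀ hL1
          rw [hC2]
          have := Nat.mul_le_mul_left A3 hddk
          omega
        have h7 := Nat.le_floor h6
        rw [← hX] at h7
        rw [Int.abs_eq_natAbs]
        exact_mod_cast h7
      have h5 : ((((Icc (-(H : ℤ)) H).filter (fun x : ℤ => |((x + v : ℤ) : ℝ)| < H / L ^ C ∨ PPow (x + v))).card : ℕ) : ℝ) ≤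
          ((((Icc (-(H : ℤ)) H).filter (fun x : ℤ => |((x + v : ℤ) : ℝ)| < H / L ^ C)).card : ℕ) : ℝ) +
          ((((Icc (-(H : ℤ)) H).filter (fun x : ℤ => PPow (x + v))).card : ℕ) : ℝ) := by
        rw [filter_or]
        exact_mod_cast card_union_le _ _
      refine h5.trans ((add_le_add (card_small H v (H / L ^ C) (by positivity)) (card_ppow H X hX1 v hvX)).trans ?_)
      calc 2 * ((H : ℝ) / L ^ C) + 1 + 8 * √(X : ℝ) * Real.log X ≤ 2 * ((H : ℝ) / L ^ C) + H / L ^ C + H / L ^ C := by linarith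
        _ = H * (4 / L ^ C) := by ring
        _ ≤ (2 * H + 1) * (3 / L ^ C) := by
            rw [mul_div_assoc', mul_div_assoc']
            apply div_le_div_of_nonneg_right _ hLCp.le
            linarith
    refine (sum_le_sum hin).trans (le_of_eq ?_)
    rw [sum_const, nsmul_eq_mul, card_Box]
    push_cast
    ring
  have hsub : (Om dd H).filter (fun f => ¬ Tame H B C P f) ⊆
      (univ ×ˢ Icc (-(T0 : ℤ)) T0).biUnion (fun q : Fin r × ℤ => (Om dd H).filter (fun f =>
        |((fv (fun t => (P q.1).eval t) (f q.1) q.2 : ℤ) : ℝ)| < H / L ^ C ∨ PPow (fv (fun t => (P q.1).eval t) (f q.1) q.2))) := by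
    intro f hf
    rw [mem_filter] at hf
    unfold Tame at hf
    push Not at hf
    obtain ⟨hf1, j, t, ht, h2⟩ := hf
    rw [← hLd] at ht h2
    rw [mem_biUnion]
    refine ⟨(j, t), ?_, ?_⟩
    · rw [mem_product]
      refine ⟨mem_univ _, ?_⟩
      have h3 : ((t.natAbs : ℕ) : ℝ) ≤ L ^ B := by rwa [Nat.cast_natAbs, Int.cast_abs]
      have h4 := Nat.le_floor h3
      rw [← hT0] at h4
      rw [mem_Icc]
      omega
    · rw [mem_filter]
      refine ⟨hf1, ?_⟩
      by_cases h3 : (H : ℝ) / L ^ C ≤ |((fv (fun t => (P j).eval t) (f j) t : ℤ) : ℝ)|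
      · right
        exact h2 h3
      · left
        push Not at h3
        exact h3
  have hcard := (card_le_card hsub).trans card_biUnion_le
  have hcard' : (((Om dd H).filter (fun f => ¬ Tame H B C P f)).card : ℝ) ≤
      ∑ q ∈ (univ : Finset (Fin r)) ×ˢ Icc (-(T0 : ℤ)) T0, NN dd H * (3 / L ^ C) := by
    refine le_trans (Nat.cast_le.2 hcard) ?_
    push_cast
    apply sum_le_sum
    intro q hq
    rw [mem_product, mem_Icc] at hq
    exact hone q.1 q.2 (abs_le.2 hq.2)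
  refine hcard'.trans ?_
  rw [sum_const, nsmul_eq_mul, card_product, card_univ, Fintype.card_fin, card_Icc']
  push_cast
  have hNN := NN_pos dd H
  have hT3 : 2 * (T0 : ℝ) + 1 ≤ 3 * L ^ B := by linarith
  calc (r : ℝ) * (2 * T0 + 1) * (NN dd H * (3 / L ^ C)) ≤ r * (3 * L ^ B) * (NN dd H * (3 / L ^ C)) := by gcongr
    _ = NN dd H * (9 * r * L ^ B / L ^ C) := by ring
    _ ≤ NN dd H * (L * L ^ B / L ^ C) := by
        gcongr
        have : (0 : ℝ) ≤ r := Nat.cast_nonneg r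
        linarith
    _ = NN dd H / L ^ Bt := by
        have e1 : L ^ C = L * L ^ B * L ^ Bt := by rw [hC, pow_add, pow_add, pow_one]; ring
        rw [e1]
        field_simp

end Pool.Agent.T9h23.BH
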