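import Mathlib
import Pool.Agent.T9h23.BH.A4

/-! From the weights to the primes. -/

set_option autoImplicit false

namespace Pool.Agent.T9h23.BH
open Finset Polynomial
open Pool.Agent.H373R2.T7
open Pool.Agent.T9h23.Cor

/-- the number of `n ≤ x` such that all polynomials of the system take prime values (up to sign) -/
noncomputable def pc {r : ℕ} {dd : Fin r → ℕ} (G : Fin r → Finset ℤ[X]) (P : Fin r → ℤ[X]) (f : (j : Fin r) → (Fin (dd j + 1) → ℤ)) (x : ℕ) : ℕ :=
  open Classical in ((Icc 1 x).filter (fun n : ℕ => ∀ j, ∀ g ∈ G j, (((hpol (P j) (f j)).comp g).eval (n : ℤ)).natAbs.Prime)).card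

lemma pc_mono {r : ℕ} {dd : Fin r → ℕ} (G : Fin r → Finset ℤ[X]) (P : Fin r → ℤ[X]) (f : (j : Fin r) → (Fin (dd j + 1) → ℤ))
    {x x' : ℕ} (h : x ≤ x') : pc G P f x ≤ pc G P f x' := by
  classical
  unfold pc
  exact card_le_card (filter_subset_filter _ (Icc_subset_Icc_right h))

lemma MM_Lam_le {r : ℕ} {dd : Fin r → ℕ} (P : Fin r → ℤ → ℤ) (f : (j : Fin r) → (Fin (dd j + 1) → ℤ))
    (G : Fin r → Finset ℤ[X]) (n : ℕ) (L : ℝ) (hL : 1 ≤ 2 * L) (h : ∀ j, ∀ t ∈ TT G n j, Lam (fv (P j) (f j) t) ≤ 2 * L) :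
    MM Lam P f (TT G n) ≤ (2 * L) ^ kk G := by
  unfold MM kk
  rw [← prod_pow_eq_pow_sum]
  apply prod_le_prod
  · intro j _
    exact prod_nonneg fun _ _ => Lam_nonneg _
  · intro j _
    calc ∏ t ∈ TT G n j, Lam (fv (P j) (f j) t) ≤ ∏ _t ∈ TT G n j, (2 * L) := prod_le_prod (fun _ _ => Lam_nonneg _) fun t ht => h j t ht
      _ = (2 * L) ^ (TT G n j).card := by rw [prod_const]
      _ ≤ _ := pow_le_pow_right₀ hL (card_TT G n j)

lemma prod_between {r : ℕ} (G : Fin r → Finset ℤ[X]) (F : Fin r → ℤ[X] → ℝ) (a b : ℝ) (ha : 0 ≤ a)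
    (h : ∀ j, ∀ g ∈ G j, a ≤ F j g ∧ F j g ≤ b) : a ^ kk G ≤ ∏ j, ∏ g ∈ G j, F j g ∧ ∏ j, ∏ g ∈ G j, F j g ≤ b ^ kk G := by
  unfold kk
  rw [← prod_pow_eq_pow_sum, ← prod_pow_eq_pow_sum]
  constructor
  · apply prod_le_prod
    · intro j _
      positivity
    · intro j _
      rw [← prod_const]
      exact prod_le_prod (fun _ _ => ha) fun g hg => (h j g hg).1
  · apply prod_le_prod
    · intro j _
      exact prod_nonneg fun g hg => ha.trans (h j g hg).1
    · intro j _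
      rw [← prod_const]
      exact prod_le_prod (fun g hg => ha.trans (h j g hg).1) fun g hg => (h j g hg).2

lemma pow_near (k : ℕ) (km : ℕ) (hk : k ≤ km) (η ε : ℝ) (hη : 0 < η) (_hε : 0 < ε) (hε1 : ε ≤ 1) (h : 2 * (km + 1) * η ≤ ε) :
    1 - ε ≤ (1 - η) ^ k ∧ (1 + η) ^ k ≤ 1 + ε := by
  have hkr : (k : ℝ) ≤ km := by exact_mod_cast hk
  have hk0 : (0 : ℝ) ≤ k := Nat.cast_nonneg k
  have hη1 : η ≤ 1 / 2 := by nlinarith
  constructor
  · have h1 := one_add_mul_le_pow (a := -η) (by linarith) k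
    have e : (1 + -η) ^ k = (1 - η) ^ k := by ring
    rw [e] at h1
    nlinarith
  · have h8 : (1 + η) ^ k ≤ Real.exp (k * η) := by
      rw [Real.exp_nat_mul]
      apply pow_le_pow_left₀ (by linarith)
      have := Real.add_one_le_exp η
      linarith
    have hkη : k * η ≤ ε / 2 := by nlinarith
    have h10 := Real.abs_exp_sub_one_le (x := k * η) (by rw [abs_of_nonneg (by positivity)]; linarith)
    rw [abs_of_nonneg (by positivity : (0 : ℝ) ≤ k * η)] at h10
    linarith [le_abs_self (Real.exp (k * η) - 1)]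

theorem prime_sum (r : ℕ) (dd : Fin r → ℕ) (D A B C : ℕ) (ε : ℝ) (hε : 0 < ε) (hε1 : ε ≤ 1) :
    ∃ H0 : ℕ, ∀ H : ℕ, H0 ≤ H → ∀ (T0 : ℕ) (P : Fin r → ℤ[X]) (G : Fin r → Finset ℤ[X]), GOK dd D G →
    (T0 : ℝ) ≤ Real.log H ^ B → (∀ j, ∀ t : ℤ, |t| ≤ T0 → |(((P j).eval t : ℤ) : ℝ)| ≤ H * Real.log H ^ A) →
    ∀ f ∈ Om dd H, Tame H B C P f → ∀ x : ℕ, (∀ n ≤ x, ∀ j, ∀ t ∈ TT G n j, |t| ≤ (T0 : ℤ)) →
    |∑ n ∈ Icc 1 x, MM Lam (fun j t => (P j).eval t) f (TT G n) - Real.log H ^ kk G * pc G P f x| ≤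
      ε * (Real.log H ^ kk G * pc G P f x) + CG dd D * (2 * Real.log H) ^ kk G := by
  classical
  obtain ⟨km, hkm⟩ : ∃ km, km = ∑ j, dd j := ⟨_, rfl⟩
  obtain ⟨A', hA'⟩ : ∃ A', A' = A + B := ⟨_, rfl⟩
  obtain ⟨C2, hC2⟩ : ∃ C2, C2 = A' * km + A' + 1 := ⟨_, rfl⟩
  obtain ⟨η, hη⟩ : ∃ η, η = ε / (2 * (km + 1)) := ⟨_, rfl⟩
  have hη0 : 0 < η := by rw [hη]; positivity
  obtain ⟨n0, h0⟩ := ev_L' (2 * km + 3)
  have hlog : ∃ n1 : ℕ, ∀ H : ℕ, n1 ≤ H → ((C : ℝ) + C2) * Real.log (Real.log H) ≤ η * Real.log H := by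
    have hlim : Filter.Tendsto (fun N : ℕ => Real.log (N : ℝ)) Filter.atTop Filter.atTop :=
      Real.tendsto_log_atTop.comp (tendsto_natCast_atTop_atTop (R := ℝ))
    have h3 := Real.isLittleO_log_id_atTop.bound (show (0 : ℝ) < η / (C + C2 + 1) by positivity)
    have h4 := hlim.eventually h3
    obtain ⟨n1, h1⟩ := Filter.eventually_atTop.1 (h4.and (hlim.eventually_ge_atTop 1))
    refine ⟨n1, fun H hH => ?_⟩
    obtain ⟨h5, h6⟩ := h1 H hH
    have h7 : 0 ≤ Real.log (Real.log H) := Real.log_nonneg h6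
    simp only [id] at h5
    rw [Real.norm_of_nonneg h7, Real.norm_of_nonneg (by linarith)] at h5
    calc ((C : ℝ) + C2) * Real.log (Real.log H) ≤ ((C : ℝ) + C2 + 1) * (η / (C + C2 + 1) * Real.log H) :=
          mul_le_mul (by linarith) h5 h7 (by positivity)
      _ = η * Real.log H := by field_simp
  obtain ⟨n1, h1⟩ := hlog
  refine ⟨max n0 (max n1 4), fun H hH T0 P G hG hT0 hP f hf htame x hx => ?_⟩
  have hn0 : n0 ≤ H := (le_max_left _ _).trans hH
  have hn1 : n1 ≤ H := ((le_max_left _ _).trans (le_max_right _ _)).trans hH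
  have hH4 : 4 ≤ H := ((le_max_right _ _).trans (le_max_right _ _)).trans hH
  have hHr : (4 : ℝ) ≤ H := by exact_mod_cast hH4
  have hH0 : (0 : ℝ) < H := by linarith
  have hL := h0 H hn0
  have a1 := h1 H hn1
  have hkk : kk G ≤ km := by rw [hkm]; exact sum_le_sum fun j _ => hG.card j
  obtain ⟨L, hLd⟩ : ∃ L, L = Real.log H := ⟨_, rfl⟩
  rw [← hLd] at hL a1 hT0 hP ⊢
  have hk0 : (0 : ℝ) ≤ km := Nat.cast_nonneg _
  have hL1 : 1 ≤ L := by linarith
  have hL0 : 0 < L := by linarith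
  have hLL0 : 0 ≤ Real.log L := Real.log_nonneg hL1
  unfold Om at hf
  rw [Fintype.mem_piFinset] at hf
  -- the size of the values
  have hval : ∀ n ≤ x, ∀ j, ∀ t ∈ TT G n j, |((fv (fun t => (P j).eval t) (f j) t : ℤ) : ℝ)| ≤ H * L ^ C2 := by
    intro n hn j t ht
    have hddk : dd j ≤ km := by rw [hkm]; exact single_le_sum (f := dd) (fun _ _ => Nat.zero_le _) (mem_univ j)
    have hddr : (dd j : ℝ) ≤ km := by exact_mod_cast hddk
    have h5 := fv_le H L A' (d := dd j) (by linarith) T0 (hT0.trans (pow_le_pow_right₀ hL1 (by omega))) (fun t => (P j).eval t)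
      (fun t ht => (hP j t ht).trans (by
        apply mul_le_mul_of_nonneg_left _ hH0.le
        exact pow_le_pow_right₀ hL1 (by omega))) (f j) (fun i => by
        have h6 := (mem_Box.1 (hf j)) i
        have h0H : (0 : ℤ) ≤ H := by positivity
        linarith) t (hx n hn j t ht)
    refine h5.trans ?_
    apply mul_le_mul_of_nonneg_left _ hH0.le
    apply pow_le_pow_right₀ hL1
    rw [hC2]
    have := Nat.mul_le_mul_left A' hddk
    omega
  have hrange : ∀ n ≤ x, ∀ j, ∀ t ∈ TT G n j, (fv (fun t => (P j).eval t) (f j) t).natAbs.Prime →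
      (1 - η) * L ≤ Lam (fv (fun t => (P j).eval t) (f j) t) ∧ Lam (fv (fun t => (P j).eval t) (f j) t) ≤ (1 + η) * L := by
    intro n hn j t ht hp
    have h5 := hval n hn j t ht
    have htr : |(t : ℝ)| ≤ Real.log H ^ B := by
      have h6 := hx n hn j t ht
      have h7 : ((|t| : ℤ) : ℝ) ≤ ((T0 : ℤ) : ℝ) := by exact_mod_cast h6
      push_cast at h7
      rw [← hLd]
      exact h7.trans hT0
    have h6 := (htame j t htr).1
    rw [← hLd] at h6
    obtain ⟨u, hu⟩ : ∃ u : ℤ, u = fv (fun t => (P j).eval t) (f j) t := ⟨_, rfl⟩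
    rw [← hu] at h5 h6 hp ⊢
    have h7 : Lam u = Real.log |(u : ℝ)| := by
      unfold Lam
      rw [ArithmeticFunction.vonMangoldt_apply_prime hp, Nat.cast_natAbs, Int.cast_abs]
    have hHL : 0 < (H : ℝ) / L ^ C := by positivity
    have h8 : Real.log ((H : ℝ) / L ^ C) = L - C * Real.log L := by
      rw [Real.log_div hH0.ne' (by positivity), Real.log_pow, ← hLd]
    have h9 : Real.log ((H : ℝ) * L ^ C2) = L + C2 * Real.log L := by
      rw [Real.log_mul hH0.ne' (by positivity), Real.log_pow, ← hLd]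
    have h10 := Real.log_le_log hHL h6
    have h11 := Real.log_le_log (lt_of_lt_of_le hHL h6) h5
    rw [h8] at h10
    rw [h9] at h11
    rw [h7]
    have hC0 : 0 ≤ (C : ℝ) * Real.log L := by positivity
    have hC20 : 0 ≤ (C2 : ℝ) * Real.log L := by positivity
    constructor <;> nlinarith
  have hη2 : η ≤ 1 := by
    rw [hη]
    refine (div_le_self hε.le ?_).trans hε1
    linarith
  have hpn := pow_near (kk G) km hkk η ε hη0 hε hε1 (by rw [hη]; field_simp; rfl)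
  have hzero : ∀ n ≤ x, ∀ j, ∀ t ∈ TT G n j, ¬ (fv (fun t => (P j).eval t) (f j) t).natAbs.Prime →
      Lam (fv (fun t => (P j).eval t) (f j) t) = 0 := by
    intro n hn j t ht hp
    have htr : |(t : ℝ)| ≤ Real.log H ^ B := by
      have h6 := hx n hn j t ht
      have h7 : ((|t| : ℤ) : ℝ) ≤ ((T0 : ℤ) : ℝ) := by exact_mod_cast h6
      push_cast at h7
      rw [← hLd]
      exact h7.trans hT0
    have h6 := (htame j t htr).2
    unfold PPow at h6
    by_contra hcon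
    exact h6 ⟨hp, hcon⟩
  have hmem : ∀ n j g, g ∈ G j → g.eval (n : ℤ) ∈ TT G n j := by
    intro n j g hg
    unfold TT
    exact mem_image_of_mem _ hg
  have hLk : 0 ≤ L ^ kk G := by positivity
  have hb0 : 0 ≤ (2 * L) ^ kk G := by positivity
  have hLk2 : L ^ kk G ≤ (2 * L) ^ kk G := pow_le_pow_left₀ hL0.le (by linarith) _
  -- pointwise
  have hpw : ∀ n ∈ Icc 1 x, |MM Lam (fun j t => (P j).eval t) f (TT G n) -
      L ^ kk G * (if ∀ j, ∀ g ∈ G j, (((hpol (P j) (f j)).comp g).eval (n : ℤ)).natAbs.Prime then (1 : ℝ) else 0)| ≤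
      ε * (L ^ kk G * (if ∀ j, ∀ g ∈ G j, (((hpol (P j) (f j)).comp g).eval (n : ℤ)).natAbs.Prime then (1 : ℝ) else 0)) +
      (if n ∈ Co G x then (2 * L) ^ kk G else 0) := by
    intro n hn
    have hnx := (mem_Icc.1 hn).2
    by_cases hco : n ∈ Co G x
    · rw [if_pos hco]
      have h2 : MM Lam (fun j t => (P j).eval t) f (TT G n) ≤ (2 * L) ^ kk G := by
        apply MM_Lam_le _ _ _ _ L (by linarith)
        intro j t ht
        by_cases hp : (fv (fun t => (P j).eval t) (f j) t).natAbs.Prime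
        · have := (hrange n hnx j t ht hp).2
          nlinarith
        · rw [hzero n hnx j t ht hp]
          linarith
      have h0 := MM_nonneg Lam_nonneg (fun j t => (P j).eval t) f (TT G n)
      split_ifs with h3
      · rw [mul_one, abs_le]
        have : 0 ≤ ε * L ^ kk G := by positivity
        constructor <;> linarith
      · rw [mul_zero, sub_zero, abs_of_nonneg h0, mul_zero, zero_add]
        exact h2
    · rw [if_neg hco, add_zero, MM_TT Lam P f G hn hco]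
      by_cases h3 : ∀ j, ∀ g ∈ G j, (((hpol (P j) (f j)).comp g).eval (n : ℤ)).natAbs.Prime
      · rw [if_pos h3, mul_one]
        have h4 := prod_between G (fun j g => Lam (((hpol (P j) (f j)).comp g).eval (n : ℤ))) ((1 - η) * L) ((1 + η) * L)
          (mul_nonneg (by linarith) hL0.le) (fun j g hg => by
            have h5 := h3 j g hg
            rw [eval_comp, hpol_eval] at h5 ⊢
            exact hrange n hnx j _ (hmem n j g hg) h5)
        rw [mul_pow, mul_pow] at h4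
        have h6 : (1 - ε) * L ^ kk G ≤ (1 - η) ^ kk G * L ^ kk G := mul_le_mul_of_nonneg_right hpn.1 hLk
        have h7 : (1 + η) ^ kk G * L ^ kk G ≤ (1 + ε) * L ^ kk G := mul_le_mul_of_nonneg_right hpn.2 hLk
        rw [abs_le]
        constructor <;> linarith [h4.1, h4.2]
      · rw [if_neg h3, mul_zero, mul_zero, sub_zero]
        push Not at h3
        obtain ⟨j, g, hg, hp⟩ := h3
        have h4 : ∏ j, ∏ g ∈ G j, Lam (((hpol (P j) (f j)).comp g).eval (n : ℤ)) = 0 := by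
          apply prod_eq_zero (mem_univ j)
          apply prod_eq_zero hg
          rw [eval_comp, hpol_eval] at hp ⊢
          exact hzero n hnx j _ (hmem n j g hg) hp
        rw [h4, abs_zero]
  have e1 : L ^ kk G * (pc G P f x : ℝ) =
      ∑ n ∈ Icc 1 x, L ^ kk G * (if ∀ j, ∀ g ∈ G j, (((hpol (P j) (f j)).comp g).eval (n : ℤ)).natAbs.Prime then (1 : ℝ) else 0) := by
    rw [← mul_sum, sum_boole]
    unfold pc
    congr 2
  rw [e1, ← sum_sub_distrib]
  refine (abs_sum_le_sum_abs _ _).trans ((sum_le_sum hpw).trans ?_)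
  rw [sum_add_distrib, ← mul_sum, ← sum_filter, sum_const, nsmul_eq_mul]
  have h2 : ((Icc 1 x).filter (fun n => n ∈ Co G x)).card ≤ CG dd D := by
    refine (card_le_card ?_).trans (card_Co hG x)
    intro n hn
    exact (mem_filter.1 hn).2
  have h2' : (((Icc 1 x).filter (fun n => n ∈ Co G x)).card : ℝ) ≤ CG dd D := by exact_mod_cast h2
  gcongr

/-- the product of the logarithms of the values is close to the power of `log H` -/
theorem log_prod (r : ℕ) (dd : Fin r → ℕ) (D A B C : ℕ) (ε : ℝ) (hε : 0 < ε) (hε1 : ε ≤ 1) :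
    ∃ H0 : ℕ, ∀ H : ℕ, H0 ≤ H → ∀ (T0 : ℕ) (P : Fin r → ℤ[X]) (G : Fin r → Finset ℤ[X]), GOK dd D G →
    (T0 : ℝ) ≤ Real.log H ^ B → (∀ j, ∀ t : ℤ, |t| ≤ T0 → |(((P j).eval t : ℤ) : ℝ)| ≤ H * Real.log H ^ A) →
    ∀ f ∈ Om dd H, Tame H B C P f → ∀ x : ℕ, (∀ j, ∀ t ∈ TT G x j, |t| ≤ (T0 : ℤ)) →
    |∏ j, ∏ g ∈ G j, Real.log |((((hpol (P j) (f j)).comp g).eval (x : ℤ) : ℤ) : ℝ)| - Real.log H ^ kk G| ≤ ε * Real.log H ^ kk G := by
  classical
  obtain ⟨km, hkm⟩ : ∃ km, km = ∑ j, dd j := ⟨_, rfl⟩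
  obtain ⟨A', hA'⟩ : ∃ A', A' = A + B := ⟨_, rfl⟩
  obtain ⟨C2, hC2⟩ : ∃ C2, C2 = A' * km + A' + 1 := ⟨_, rfl⟩
  obtain ⟨η, hη⟩ : ∃ η, η = ε / (2 * (km + 1)) := ⟨_, rfl⟩
  have hη0 : 0 < η := by rw [hη]; positivity
  obtain ⟨n0, h0⟩ := ev_L' (2 * km + 3)
  have hlog : ∃ n1 : ℕ, ∀ H : ℕ, n1 ≤ H → ((C : ℝ) + C2) * Real.log (Real.log H) ≤ η * Real.log H := by
    have hlim : Filter.Tendsto (fun N : ℕ => Real.log (N : ℝ)) Filter.atTop Filter.atTop :=
      Real.tendsto_log_atTop.comp (tendsto_natCast_atTop_atTop (R := ℝ))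
    have h3 := Real.isLittleO_log_id_atTop.bound (show (0 : ℝ) < η / (C + C2 + 1) by positivity)
    have h4 := hlim.eventually h3
    obtain ⟨n1, h1⟩ := Filter.eventually_atTop.1 (h4.and (hlim.eventually_ge_atTop 1))
    refine ⟨n1, fun H hH => ?_⟩
    obtain ⟨h5, h6⟩ := h1 H hH
    have h7 : 0 ≤ Real.log (Real.log H) := Real.log_nonneg h6
    simp only [id] at h5
    rw [Real.norm_of_nonneg h7, Real.norm_of_nonneg (by linarith)] at h5
    calc ((C : ℝ) + C2) * Real.log (Real.log H) ≤ ((C : ℝ) + C2 + 1) * (η / (C + C2 + 1) * Real.log H) :=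
          mul_le_mul (by linarith) h5 h7 (by positivity)
      _ = η * Real.log H := by field_simp
  obtain ⟨n1, h1⟩ := hlog
  refine ⟨max n0 (max n1 4), fun H hH T0 P G hG hT0 hP f hf htame x hx => ?_⟩
  have hn0 : n0 ≤ H := (le_max_left _ _).trans hH
  have hn1 : n1 ≤ H := ((le_max_left _ _).trans (le_max_right _ _)).trans hH
  have hH4 : 4 ≤ H := ((le_max_right _ _).trans (le_max_right _ _)).trans hH
  have hHr : (4 : ℝ) ≤ H := by exact_mod_cast hH4
  have hH0 : (0 : ℝ) < H := by linarith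
  have hL := h0 H hn0
  have a1 := h1 H hn1
  have hkk : kk G ≤ km := by rw [hkm]; exact sum_le_sum fun j _ => hG.card j
  obtain ⟨L, hLd⟩ : ∃ L, L = Real.log H := ⟨_, rfl⟩
  rw [← hLd] at hL a1 hT0 hP ⊢
  have hk0 : (0 : ℝ) ≤ km := Nat.cast_nonneg _
  have hL1 : 1 ≤ L := by linarith
  have hL0 : 0 < L := by linarith
  have hLL0 : 0 ≤ Real.log L := Real.log_nonneg hL1
  unfold Om at hf
  rw [Fintype.mem_piFinset] at hf
  have hmem : ∀ n j g, g ∈ G j → g.eval (n : ℤ) ∈ TT G n j := by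
    intro n j g hg
    unfold TT
    exact mem_image_of_mem _ hg
  have hη2 : η ≤ 1 := by
    rw [hη]
    refine (div_le_self hε.le ?_).trans hε1
    linarith
  have hpn := pow_near (kk G) km hkk η ε hη0 hε hε1 (by rw [hη]; field_simp; rfl)
  have hrange : ∀ j, ∀ t ∈ TT G x j,
      (1 - η) * L ≤ Real.log |((fv (fun t => (P j).eval t) (f j) t : ℤ) : ℝ)| ∧
      Real.log |((fv (fun t => (P j).eval t) (f j) t : ℤ) : ℝ)| ≤ (1 + η) * L := by
    intro j t ht
    have hddk : dd j ≤ km := by rw [hkm]; exact single_le_sum (f := dd) (fun _ _ => Nat.zero_le _) (mem_univ j)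
    have hddr : (dd j : ℝ) ≤ km := by exact_mod_cast hddk
    have h5 : |((fv (fun t => (P j).eval t) (f j) t : ℤ) : ℝ)| ≤ H * L ^ C2 := by
      have h5 := fv_le H L A' (d := dd j) (by linarith) T0 (hT0.trans (pow_le_pow_right₀ hL1 (by omega))) (fun t => (P j).eval t)
        (fun t ht => (hP j t ht).trans (by
          apply mul_le_mul_of_nonneg_left _ hH0.le
          exact pow_le_pow_right₀ hL1 (by omega))) (f j) (fun i => by
          have h6 := (mem_Box.1 (hf j)) i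
          have h0H : (0 : ℤ) ≤ H := by positivity
          linarith) t (hx j t ht)
      refine h5.trans ?_
      apply mul_le_mul_of_nonneg_left _ hH0.le
      apply pow_le_pow_right₀ hL1
      rw [hC2]
      have := Nat.mul_le_mul_left A' hddk
      omega
    have htr : |(t : ℝ)| ≤ Real.log H ^ B := by
      have h6 := hx j t ht
      have h7 : ((|t| : ℤ) : ℝ) ≤ ((T0 : ℤ) : ℝ) := by exact_mod_cast h6
      push_cast at h7
      rw [← hLd]
      exact h7.trans hT0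
    have h6 := (htame j t htr).1
    rw [← hLd] at h6
    obtain ⟨u, hu⟩ : ∃ u : ℤ, u = fv (fun t => (P j).eval t) (f j) t := ⟨_, rfl⟩
    rw [← hu] at h5 h6 ⊢
    have hHL : 0 < (H : ℝ) / L ^ C := by positivity
    have h8 : Real.log ((H : ℝ) / L ^ C) = L - C * Real.log L := by
      rw [Real.log_div hH0.ne' (by positivity), Real.log_pow, ← hLd]
    have h9 : Real.log ((H : ℝ) * L ^ C2) = L + C2 * Real.log L := by
      rw [Real.log_mul hH0.ne' (by positivity), Real.log_pow, ← hLd]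
    have h10 := Real.log_le_log hHL h6
    have h11 := Real.log_le_log (lt_of_lt_of_le hHL h6) h5
    rw [h8] at h10
    rw [h9] at h11
    have hC0 : 0 ≤ (C : ℝ) * Real.log L := by positivity
    have hC20 : 0 ≤ (C2 : ℝ) * Real.log L := by positivity
    constructor <;> linarith
  have h4 := prod_between G (fun j g => Real.log |((((hpol (P j) (f j)).comp g).eval (x : ℤ) : ℤ) : ℝ)|) ((1 - η) * L) ((1 + η) * L)
    (mul_nonneg (by linarith) hL0.le) (fun j g hg => by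
      rw [eval_comp, hpol_eval]
      exact hrange j _ (hmem x j g hg))
  rw [mul_pow, mul_pow] at h4
  have hLk : 0 ≤ L ^ kk G := by positivity
  have h6 : (1 - ε) * L ^ kk G ≤ (1 - η) ^ kk G * L ^ kk G := mul_le_mul_of_nonneg_right hpn.1 hLk
  have h7 : (1 + η) ^ kk G * L ^ kk G ≤ (1 + ε) * L ^ kk G := mul_le_mul_of_nonneg_right hpn.2 hLk
  rw [abs_le]
  constructor <;> linarith [h4.1, h4.2]

/-- a fixed divisor excludes primes, as the values are large -/
lemma pc_zero {r : ℕ} {dd : Fin r → ℕ} {D : ℕ} {H B C : ℕ} (G : Fin r → Finset ℤ[X]) (P : Fin r → ℤ[X])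
    (f : (j : Fin r) → (Fin (dd j + 1) → ℤ)) (_hG : GOK dd D G) (htame : Tame H B C P f) (T0 x y : ℕ) (hT0 : (T0 : ℝ) ≤ Real.log H ^ B)
    (hx : ∀ n ≤ x, ∀ j, ∀ t ∈ TT G n j, |t| ≤ (T0 : ℤ)) (hy : (y : ℝ) < H / Real.log H ^ C) (hD : Dn (qq G P f) y = 0) :
    pc G P f x = 0 := by
  classical
  unfold pc
  rw [card_eq_zero, filter_eq_empty_iff]
  intro n hn hpr
  have hnx := (mem_Icc.1 hn).2
  have h1 : ∃ p ∈ pz y, om (qq G P f) p = p := by
    unfold Dn at hD
    rw [prod_eq_zero_iff] at hD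
    obtain ⟨p, hp, h2⟩ := hD
    refine ⟨p, hp, ?_⟩
    have hp0 : (p : ℝ) ≠ 0 := by exact_mod_cast (mem_pz.1 hp).2.ne_zero
    have h3 : (om (qq G P f) p : ℝ) / p = 1 := by linarith
    rw [div_eq_one_iff_eq hp0] at h3
    exact_mod_cast h3
  obtain ⟨p, hp, hom⟩ := h1
  have hpp := (mem_pz.1 hp).2
  obtain ⟨j, g, hg, hd⟩ := (dvd_qq G P f hpp n).1 (om_full (qq G P f) hpp hom n)
  have h2 := hpr j g hg
  have h3 := (Nat.prime_dvd_prime_iff_eq hpp h2).1 (Int.natCast_dvd.1 hd)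
  have htt : g.eval (n : ℤ) ∈ TT G n j := by unfold TT; exact mem_image_of_mem _ hg
  have htr : |((g.eval (n : ℤ) : ℤ) : ℝ)| ≤ Real.log H ^ B := by
    have h6 := hx n hnx j _ htt
    have h7 : ((|g.eval (n : ℤ)| : ℤ) : ℝ) ≤ ((T0 : ℤ) : ℝ) := by exact_mod_cast h6
    push_cast at h7
    exact h7.trans hT0
  have h4 := (htame j _ htr).1
  rw [eval_comp, hpol_eval] at h3
  have h5 : |((fv (fun t => (P j).eval t) (f j) (g.eval (n : ℤ)) : ℤ) : ℝ)| = p := by
    rw [← Int.cast_abs, ← Nat.cast_natAbs, ← h3]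
  rw [h5] at h4
  have h6 : (p : ℝ) ≤ y := by exact_mod_cast (mem_pz.1 hp).1
  linarith

end Pool.Agent.T9h23.BH
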