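import Mathlib
import Pool.Agent.T9h23.BH.A5

/-! The quantitative Hypothesis H for almost all systems of compositions. -/

set_option autoImplicit false

namespace Pool.Agent.T9h23.BH
open Finset Polynomial
open Pool.Agent.H373R2.T7
open Pool.Agent.T9h23.Cor

/-- the conclusion for one system -/
def Concl {r : ℕ} {dd : Fin r → ℕ} (H A : ℕ) (ε x0 : ℝ) (G : Fin r → Finset ℤ[X]) (P : Fin r → ℤ[X])
    (f : (j : Fin r) → (Fin (dd j + 1) → ℤ)) : Prop :=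
  ∀ x : ℕ, x0 ≤ x → (x : ℝ) ≤ Real.log H ^ A → ∀ z : ℕ, x0 ^ ε ≤ z → (z : ℝ) ≤ Real.log H ^ A →
    |(pc G P f x : ℝ) - CC (qq G P f) (kk G) z * (x / Real.log H ^ kk G)| ≤ ε * (CC (qq G P f) (kk G) z * (x / Real.log H ^ kk G)) ∧
    |∏ j, ∏ g ∈ G j, Real.log |((((hpol (P j) (f j)).comp g).eval (x : ℤ) : ℤ) : ℝ)| - Real.log H ^ kk G| ≤ ε * Real.log H ^ kk G

/-- one point of the grid -/
lemma num3 (N Cy X ε1 δ S T U V : ℝ) (hε0 : 0 < ε1) (hε1 : ε1 ≤ 1 / 20) (hX : 0 < X) (_hN : 0 ≤ N) (hCy : 0 ≤ Cy) (hδ : δ ≤ Cy)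
    (h1 : |S - N| ≤ ε1 * N + U) (h2 : |S - T| ≤ ε1 * (X * δ)) (h3 : |T - X * Cy| ≤ ε1 * (X * Cy) + V)
    (hU : U ≤ ε1 * (X * δ)) (hV : V ≤ ε1 * (X * δ)) : |N - X * Cy| ≤ 10 * ε1 * (X * Cy) := by
  have hXδ : ε1 * (X * δ) ≤ ε1 * (X * Cy) := by gcongr
  have h4 : |N - X * Cy| ≤ ε1 * N + 4 * (ε1 * (X * Cy)) := by
    rw [abs_le] at h1 h2 h3 ⊢
    constructor <;> linarith [h1.1, h1.2, h2.1, h2.2, h3.1, h3.2]
  have h5 : N ≤ X * Cy + |N - X * Cy| := by linarith [le_abs_self (N - X * Cy)]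
  have h6 : ε1 * N ≤ ε1 * (X * Cy) + ε1 * |N - X * Cy| := by
    rw [← mul_add]
    exact mul_le_mul_of_nonneg_left h5 hε0.le
  have h7 : ε1 * |N - X * Cy| ≤ 1 / 20 * |N - X * Cy| := mul_le_mul_of_nonneg_right hε1 (abs_nonneg _)
  have h8 : 0 ≤ ε1 * (X * Cy) := by positivity
  nlinarith [abs_nonneg (N - X * Cy)]

/-- between two points of the grid, and the change of the constant -/
lemma num4 (N N1 N2 x X1 X2 Cy Cz ε1 : ℝ) (hε0 : 0 < ε1) (hε1 : ε1 ≤ 1 / 40) (hx : 0 < x) (hX1 : 0 ≤ X1) (hCy : 0 ≤ Cy)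
    (hN1 : N1 ≤ N) (hN2 : N ≤ N2) (hx1 : X1 ≤ x) (hx2 : x ≤ X2) (h12 : X2 ≤ (1 + 2 * ε1) * X1)
    (h1 : |N1 - X1 * Cy| ≤ 10 * ε1 * (X1 * Cy)) (h2 : |N2 - X2 * Cy| ≤ 10 * ε1 * (X2 * Cy)) (hz : |Cz - Cy| ≤ ε1 * Cy) :
    |N - x * Cz| ≤ 25 * ε1 * (x * Cz) := by
  rw [abs_le] at h1 h2 hz
  have hxy : 0 ≤ x * Cy := by positivity
  have hup : N ≤ (1 + 10 * ε1) * ((1 + 2 * ε1) * (x * Cy)) := by
    have h3 : X2 * Cy ≤ (1 + 2 * ε1) * (x * Cy) := by
      calc X2 * Cy ≤ ((1 + 2 * ε1) * X1) * Cy := by gcongr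
        _ ≤ ((1 + 2 * ε1) * x) * Cy := by gcongr
        _ = _ := by ring
    have h4 : (1 + 10 * ε1) * (X2 * Cy) ≤ (1 + 10 * ε1) * ((1 + 2 * ε1) * (x * Cy)) := by gcongr
    linarith [h2.2]
  have hlow : (1 - 10 * ε1) * (1 - 2 * ε1) * (x * Cy) ≤ N := by
    have h3 : (1 - 2 * ε1) * (x * Cy) ≤ X1 * Cy := by
      have h5 : (1 - 2 * ε1) * x ≤ X1 := by
        have h6 : x ≤ (1 + 2 * ε1) * X1 := hx2.trans h12
        have h7 : (1 - 2 * ε1) * x ≤ (1 - 2 * ε1) * ((1 + 2 * ε1) * X1) := mul_le_mul_of_nonneg_left h6 (by linarith)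
        nlinarith [mul_nonneg (mul_nonneg hε0.le hε0.le) hX1]
      calc (1 - 2 * ε1) * (x * Cy) = ((1 - 2 * ε1) * x) * Cy := by ring
        _ ≤ X1 * Cy := by gcongr
    have h4 : (1 - 10 * ε1) * ((1 - 2 * ε1) * (x * Cy)) ≤ (1 - 10 * ε1) * (X1 * Cy) := mul_le_mul_of_nonneg_left h3 (by linarith)
    linarith [h1.1]
  have hzx1 : x * Cz ≤ (1 + ε1) * (x * Cy) := by nlinarith [hz.2]
  have hzx2 : (1 - ε1) * (x * Cy) ≤ x * Cz := by nlinarith [hz.1]
  have hεε : ε1 * (ε1 * (x * Cy)) ≤ 1 / 40 * (ε1 * (x * Cy)) := mul_le_mul_of_nonneg_right hε1 (by positivity)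
  have hεp : 0 ≤ ε1 * (x * Cy) := by positivity
  have hεz : (1 - ε1) * (ε1 * (x * Cy)) ≤ ε1 * (x * Cz) := by nlinarith [mul_le_mul_of_nonneg_left hzx2 hε0.le]
  rw [abs_le]
  constructor <;> nlinarith

lemma aux1 {ε δ : ℝ} (hε : 0 < ε) (h : δ ≤ 1) : ε * δ ≤ ε := by nlinarith
lemma aux2 {ε δ δ2 : ℝ} (hε : 0 < ε) (hδ : 0 < δ) (h : δ2 ≤ δ) : ε * δ2 / 16 / 2 ≤ ε * δ / 2 := by nlinarith [mul_pos hε hδ]
lemma aux3 {a y x : ℝ} (h3 : 3 ≤ a) (h : a * a ≤ x) (h2 : x ≤ 2 * y) : a ≤ y := by nlinarith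
lemma aux4 {x0 b : ℝ} (hx : 0 < x0) (h : 1 ≤ b) : x0 ≤ x0 * b := by nlinarith
lemma aux5 {s c : ℝ} (hs : 1 ≤ s) (hc : 0 ≤ c) : s + c ≤ (c + 1) * s := by nlinarith
lemma aux6 {H : ℝ} (hH : 4 ≤ H) : √H < H := by
  rw [Real.sqrt_lt' (by linarith)]
  nlinarith
lemma aux7 {e : ℝ} (h0 : 0 < e) (h1 : e ≤ 1) : e ^ 2 ≤ e := by nlinarith
lemma aux8 {x0 L LA : ℝ} (hL : 3 ≤ L) (h : x0 ≤ LA) (hx : 0 < x0) : 3 * x0 ≤ LA * L := by nlinarith
lemma aux9 {a b : ℝ} (h3 : 3 ≤ a) (h : a * a = b) : 6 ≤ b := by nlinarith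
lemma aux10 {s ε δ2 : ℝ} (hs : s ≤ 6 * (ε * δ2 / 16)) : s + ε * δ2 / 16 ≤ 7 * δ2 / 16 * ε := by linarith

theorem fin (r : ℕ) (dd : Fin r → ℕ) (D : ℕ) (hdd : ∀ j, 1 ≤ dd j) (ε : ℝ) (hε : 0 < ε) : ∃ c : ℝ, 0 < c ∧ ∀ A : ℕ, ∃ H0 : ℕ,
    ∀ H : ℕ, H0 ≤ H → ∀ (P : Fin r → ℤ[X]) (G : Fin r → Finset ℤ[X]), GOK dd D G → Small H A D P G →
    ∀ x0 : ℝ, Real.log H ^ ((kk G : ℝ) + ε) ≤ x0 →
    (open Classical in (((Om dd H).filter (fun f => ¬ Concl H A ε x0 G P f)).card : ℝ)) ≤ NN dd H / x0 ^ c := by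
  classical
  obtain ⟨km, hkm⟩ : ∃ km, km = ∑ j, dd j := ⟨_, rfl⟩
  obtain ⟨cd, hcd⟩ : ∃ cd, cd = cdeg dd D + 1 := ⟨_, rfl⟩
  obtain ⟨ε1, hε1d⟩ : ∃ ε1 : ℝ, ε1 = min (ε / 25) (1 / 40) := ⟨_, rfl⟩
  have hε10 : 0 < ε1 := by rw [hε1d]; positivity
  have hε1a : ε1 ≤ 1 / 40 := by rw [hε1d]; exact min_le_right _ _
  have hε1b : 25 * ε1 ≤ ε := by
    have : ε1 ≤ ε / 25 := by rw [hε1d]; exact min_le_left _ _
    linarith
  obtain ⟨K, y0, hK, hsv⟩ := sieve_poly cd ε1 hε10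
  obtain ⟨κ, hκ0, hDl⟩ := Dn_lower cd (by omega)
  have hKr : (1 : ℝ) ≤ K := by exact_mod_cast hK
  -- exponents
  obtain ⟨δ, hδd⟩ : ∃ δ : ℝ, δ = min (min ε 1) (1 / K) := ⟨_, rfl⟩
  have hδ0 : 0 < δ := by rw [hδd]; positivity
  have hδε : δ ≤ ε := by rw [hδd]; exact (min_le_left _ _).trans (min_le_left _ _)
  have hδ1 : δ ≤ 1 := by rw [hδd]; exact (min_le_left _ _).trans (min_le_right _ _)
  have hδK : δ * K ≤ 1 := by
    have : δ ≤ 1 / K := by rw [hδd]; exact min_le_right _ _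
    rwa [le_div_iff₀ (by linarith)] at this
  obtain ⟨δ2, hδ2d⟩ : ∃ δ2 : ℝ, δ2 = min δ (ε / (km + ε)) := ⟨_, rfl⟩
  have hkm0 : (0 : ℝ) ≤ km := Nat.cast_nonneg _
  have hδ20 : 0 < δ2 := by rw [hδ2d]; positivity
  have hδ2a : δ2 ≤ δ := by rw [hδ2d]; exact min_le_left _ _
  have hδ2b : δ2 ≤ ε / (km + ε) := by rw [hδ2d]; exact min_le_right _ _
  obtain ⟨e, hed⟩ : ∃ e : ℝ, e = ε * δ / 2 := ⟨_, rfl⟩
  have he0 : 0 < e := by rw [hed]; positivity
  obtain ⟨e', he'd⟩ : ∃ e' : ℝ, e' = ε * δ2 / 16 := ⟨_, rfl⟩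
  have he'0 : 0 < e' := by rw [he'd]; positivity
  have hδ21 : δ2 ≤ 1 := hδ2a.trans hδ1
  have he'ε : e' ≤ ε / 16 := by
    rw [he'd]
    apply div_le_div_of_nonneg_right _ (by norm_num)
    exact aux1 hε hδ21
  refine ⟨δ2 / 4, by positivity, fun A => ?_⟩
  obtain ⟨A', n0, hpts⟩ := pts D A (A + 1)
  obtain ⟨C, n1, htame⟩ := tame_card r dd D A A' (A + 1)
  obtain ⟨n2, hps⟩ := prime_sum r dd D A' A' C ε1 hε10 (by linarith)
  obtain ⟨n3, hCZ⟩ := CZ r dd D A hdd ε1 e e' hε10 he0 he'0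
  obtain ⟨n4, hSM⟩ := SM r dd D A (A + 1) hdd e e' he0 he'0
  obtain ⟨n5, hgl⟩ := grid_len A ε1 e' hε10 he'0
  obtain ⟨n6, hL6⟩ := ev_L' 3
  obtain ⟨n7, hL7⟩ := ev_rpow (max (max (2 * (y0 + 1)) (3 / ε1 ^ 2)) (max (1 / κ) 3)) (e' / 2) (by positivity)
  obtain ⟨n8, hV8⟩ := Vz_small A (e' / (4 * (km + cd))) (by
    have : (0 : ℝ) < cd := by exact_mod_cast (by omega : 0 < cd)
    positivity)
  obtain ⟨n9, hL9⟩ := ev_rpow (max (1 / ε1) (2 ^ km * (CG dd D + 1) / ε1)) (ε / 4) (by positivity)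
  obtain ⟨n10, hL10⟩ := ev_log' (A + C) 1
  obtain ⟨n11, hlp⟩ := log_prod r dd D A' A' C ε1 hε10 (by linarith)
  refine ⟨max (max (max (max n0 n1) (max n2 n3)) (max (max n4 n5) (max n6 n7))) (max (max n8 n9) (max n10 (max n11 4))),
    fun H hH P G hG hS x0 hx0 => ?_⟩
  have hn0 : n0 ≤ H := ((((le_max_left _ _).trans (le_max_left _ _)).trans (le_max_left _ _)).trans (le_max_left _ _)).trans hH
  have hn1 : n1 ≤ H := ((((le_max_right _ _).trans (le_max_left _ _)).trans (le_max_left _ _)).trans (le_max_left _ _)).trans hH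
  have hn2 : n2 ≤ H := ((((le_max_left _ _).trans (le_max_right _ _)).trans (le_max_left _ _)).trans (le_max_left _ _)).trans hH
  have hn3 : n3 ≤ H := ((((le_max_right _ _).trans (le_max_right _ _)).trans (le_max_left _ _)).trans (le_max_left _ _)).trans hH
  have hn4 : n4 ≤ H := ((((le_max_left _ _).trans (le_max_left _ _)).trans (le_max_right _ _)).trans (le_max_left _ _)).trans hH
  have hn5 : n5 ≤ H := ((((le_max_right _ _).trans (le_max_left _ _)).trans (le_max_right _ _)).trans (le_max_left _ _)).trans hH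
  have hn6 : n6 ≤ H := ((((le_max_left _ _).trans (le_max_right _ _)).trans (le_max_right _ _)).trans (le_max_left _ _)).trans hH
  have hn7 : n7 ≤ H := ((((le_max_right _ _).trans (le_max_right _ _)).trans (le_max_right _ _)).trans (le_max_left _ _)).trans hH
  have hn8 : n8 ≤ H := (((le_max_left _ _).trans (le_max_left _ _)).trans (le_max_right _ _)).trans hH
  have hn9 : n9 ≤ H := (((le_max_right _ _).trans (le_max_left _ _)).trans (le_max_right _ _)).trans hH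
  have hn10 : n10 ≤ H := (((le_max_left _ _).trans (le_max_right _ _)).trans (le_max_right _ _)).trans hH
  have hn11 : n11 ≤ H := ((((le_max_left _ _).trans (le_max_right _ _)).trans (le_max_right _ _)).trans (le_max_right _ _)).trans hH
  have hH4 : 4 ≤ H := ((((le_max_right _ _).trans (le_max_right _ _)).trans (le_max_right _ _)).trans (le_max_right _ _)).trans hH
  have hHr : (4 : ℝ) ≤ H := by exact_mod_cast hH4
  have hH0 : (0 : ℝ) < H := by linarith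
  have hL3 := hL6 H hn6
  have a7 := hL7 H hn7
  have a9 := hL9 H hn9
  have a10 := hL10 H hn10
  obtain ⟨M, hM1, hM2⟩ := hgl H hn5
  obtain ⟨T0, hT0, hT⟩ := hpts H hn0
  obtain ⟨hPv, hpt⟩ := hT r dd P G hG hS
  have htm := htame H hn1 P hS.degP hS.coefP
  obtain ⟨L, hLd⟩ : ∃ L, L = Real.log H := ⟨_, rfl⟩
  rw [← hLd] at hL3 a7 a9 a10 hM1 hM2 hT0 hpt hPv htm hx0
  have hL0 : 0 < L := by linarith
  have hL1 : 1 ≤ L := by linarith
  have hkk : kk G ≤ km := by rw [hkm]; exact sum_le_sum fun j _ => hG.card j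
  have hkkr : (kk G : ℝ) ≤ km := by exact_mod_cast hkk
  have hkk0 : (0 : ℝ) ≤ kk G := Nat.cast_nonneg _
  have hcd0 : (0 : ℝ) < cd := by exact_mod_cast (by omega : 0 < cd)
  have hNN := NN_pos dd H
  -- `x0` is large
  have hx0ε : L ^ ε ≤ x0 := (Real.rpow_le_rpow_of_exponent_le hL1 (by linarith)).trans hx0
  have hx01 : 1 ≤ x0 := (Real.one_le_rpow hL1 hε.le).trans hx0ε
  have hx0p : 0 < x0 := by linarith
  -- the trivial case
  rcases lt_or_ge (L ^ A) x0 with hbig | hbig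
  · have : (Om dd H).filter (fun f => ¬ Concl H A ε x0 G P f) = ∅ := by
      rw [filter_eq_empty_iff]
      intro f _ h
      apply h
      intro x hx1 hx2
      rw [← hLd] at hx2
      linarith
    rw [this, card_empty, Nat.cast_zero]
    positivity
  -- `y`
  obtain ⟨y, hyd⟩ : ∃ y : ℕ, y = ⌊x0 ^ δ⌋₊ := ⟨_, rfl⟩
  have hx0δ : 1 ≤ x0 ^ δ := Real.one_le_rpow hx01 hδ0.le
  have hLexp : L ^ (ε * δ) ≤ x0 ^ δ := by
    rw [Real.rpow_mul hL0.le]
    exact Real.rpow_le_rpow (by positivity) hx0ε hδ0.le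
  have hya : (y : ℝ) ≤ x0 ^ δ := by rw [hyd]; exact Nat.floor_le (by positivity)
  have hyb : x0 ^ δ ≤ 2 * y := by
    have h1 : x0 ^ δ < y + 1 := by rw [hyd]; exact Nat.lt_floor_add_one _
    have h2 : 1 ≤ y := by rw [hyd]; exact Nat.le_floor (by exact_mod_cast hx0δ)
    have h3 : (1 : ℝ) ≤ y := by exact_mod_cast h2
    linarith
  have he'e : e' / 2 ≤ e := by
    rw [he'd, hed]
    exact aux2 hε hδ0 hδ2a
  have h7a : 2 * ((y0 : ℝ) + 1) ≤ L ^ (e' / 2) := ((le_max_left _ _).trans (le_max_left _ _)).trans a7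
  have h7b : 3 / ε1 ^ 2 ≤ L ^ (e' / 2) := ((le_max_right _ _).trans (le_max_left _ _)).trans a7
  have h7c : 1 / κ ≤ L ^ (e' / 2) := ((le_max_left _ _).trans (le_max_right _ _)).trans a7
  have h7d : 3 ≤ L ^ (e' / 2) := ((le_max_right _ _).trans (le_max_right _ _)).trans a7
  have hyL : L ^ e ≤ y := by
    have h1 : L ^ e * L ^ e = L ^ (ε * δ) := by rw [← Real.rpow_add hL0, hed]; congr 1; ring
    have h2 : 3 ≤ L ^ e := h7d.trans (Real.rpow_le_rpow_of_exponent_le hL1 he'e)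
    exact aux3 h2 (h1.le.trans hLexp) hyb
  have hyy0 : y0 ≤ y := by
    have h1 : (y0 : ℝ) ≤ y := by
      have h2 : L ^ (e' / 2) ≤ L ^ e := Real.rpow_le_rpow_of_exponent_le hL1 he'e
      have h3 : (0 : ℝ) ≤ y0 := Nat.cast_nonneg _
      linarith
    exact_mod_cast h1
  have hy1r : (1 : ℝ) ≤ y := (Real.one_le_rpow hL1 he0.le).trans hyL
  have hy1 : 1 ≤ y := by exact_mod_cast hy1r
  have hyx0 : (y : ℝ) ≤ x0 := hya.trans (by
    calc x0 ^ δ ≤ x0 ^ (1 : ℝ) := Real.rpow_le_rpow_of_exponent_le hx01 hδ1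
      _ = x0 := Real.rpow_one _)
  have hyA : (y : ℝ) ≤ L ^ A := hyx0.trans hbig
  have hyK : ((y : ℝ)) ^ K ≤ x0 := by
    calc (y : ℝ) ^ K ≤ (x0 ^ δ) ^ K := pow_le_pow_left₀ (by linarith) hya K
      _ = x0 ^ (δ * K) := by rw [Real.rpow_mul hx0p.le, Real.rpow_natCast]
      _ ≤ x0 ^ (1 : ℝ) := Real.rpow_le_rpow_of_exponent_le hx01 hδK
      _ = x0 := Real.rpow_one _
  -- the bad sets
  obtain ⟨S, hSd⟩ : ∃ S : ℕ → ((j : Fin r) → (Fin (dd j + 1) → ℤ)) → ℝ, S = fun X f =>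
    ∑ n ∈ Icc 1 X, (MM Lam (fun j t => (P j).eval t) f (TT G n) - MM (lz y) (fun j t => (P j).eval t) f (TT G n)) := ⟨_, rfl⟩
  have hLkx : L ^ (kk G : ℝ) / x0 ≤ x0 ^ (-δ2) := by
    have h1 : L ^ (kk G : ℝ) ≤ x0 ^ ((kk G : ℝ) / (kk G + ε)) := by
      calc L ^ (kk G : ℝ) = (L ^ ((kk G : ℝ) + ε)) ^ ((kk G : ℝ) / (kk G + ε)) := by
            rw [← Real.rpow_mul hL0.le]
            congr 1
            have : (kk G : ℝ) + ε ≠ 0 := by positivity
            field_simp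
        _ ≤ _ := Real.rpow_le_rpow (by positivity) hx0 (by positivity)
    rw [div_le_iff₀ hx0p]
    calc L ^ (kk G : ℝ) ≤ x0 ^ ((kk G : ℝ) / (kk G + ε)) := h1
      _ ≤ x0 ^ (-δ2 + 1) := by
          apply Real.rpow_le_rpow_of_exponent_le hx01
          have h2 : (kk G : ℝ) / (kk G + ε) = 1 - ε / (kk G + ε) := by
            have : (kk G : ℝ) + ε ≠ 0 := by positivity
            field_simp
            ring
          have h3 : ε / (km + ε) ≤ ε / (kk G + ε) := by gcongr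
          linarith
      _ = x0 ^ (-δ2) * x0 := by rw [Real.rpow_add hx0p, Real.rpow_one]
  have hbadX : ∀ X : ℕ, x0 ≤ X → (X : ℝ) ≤ L ^ (A + 1) →
      (((Om dd H).filter (fun f => ε1 * (X * L ^ (-e')) < |S X f|)).card : ℝ) ≤ NN dd H * (L ^ (e' / 2) * L ^ (3 * e') * x0 ^ (-δ2)) := by
    intro X hX1 hX2
    have hX0 : (0 : ℝ) < X := by linarith
    have hm := hSM H hn4 y (by rw [← hLd]; exact hyL) (by rw [← hLd]; exact hyA.trans (pow_le_pow_right₀ hL1 (by omega))) P G hG hS X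
      (by rw [← hLd]; exact hX2) Lam (Or.inl rfl)
    rw [← hLd] at hm
    have hm' : ∑ f ∈ Om dd H, S X f ^ 2 ≤ NN dd H * (L ^ e' * ((X : ℝ) ^ 2 / y + X * L ^ kk G)) := by
      rw [hSd]; exact hm
    refine (cheb (Om dd H) (S X) _ (ε1 * (X * L ^ (-e'))) (by positivity) hm').trans ?_
    rw [div_le_iff₀ (by positivity)]
    have h1 : (X : ℝ) ^ 2 / y ≤ X ^ 2 * (2 * x0 ^ (-δ2)) := by
      rw [div_eq_mul_inv]
      apply mul_le_mul_of_nonneg_left _ (by positivity)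
      have h2 : ((y : ℝ))⁻¹ ≤ 2 * (x0 ^ δ)⁻¹ := by
        rw [← div_eq_mul_inv, le_div_iff₀ (by positivity), inv_mul_le_iff₀ (by linarith)]
        linarith
      rw [← Real.rpow_neg hx0p.le] at h2
      have h3 : x0 ^ (-δ) ≤ x0 ^ (-δ2) := Real.rpow_le_rpow_of_exponent_le hx01 (by linarith)
      linarith
    have h2 : (X : ℝ) * L ^ kk G ≤ X ^ 2 * x0 ^ (-δ2) := by
      rw [← Real.rpow_natCast]
      rw [div_le_iff₀ hx0p] at hLkx
      calc (X : ℝ) * L ^ (kk G : ℝ) ≤ X * (x0 ^ (-δ2) * x0) := by gcongr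
        _ ≤ X * (x0 ^ (-δ2) * X) := by gcongr
        _ = _ := by ring
    have h11 : (L ^ (-e')) ^ 2 * L ^ (2 * e') = 1 := by
      rw [← Real.rpow_natCast, ← Real.rpow_mul hL0.le, ← Real.rpow_add hL0]
      norm_num
      have : -(e' * 2) + 2 * e' = 0 := by ring
      rw [this, Real.rpow_zero]
    have h12 : L ^ e' * L ^ (2 * e') = L ^ (3 * e') := by rw [← Real.rpow_add hL0]; congr 1; ring
    calc NN dd H * (L ^ e' * ((X : ℝ) ^ 2 / y + X * L ^ kk G)) ≤ NN dd H * (L ^ e' * (X ^ 2 * (2 * x0 ^ (-δ2)) + X ^ 2 * x0 ^ (-δ2))) := by gcongr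
      _ = NN dd H * ((3 / ε1 ^ 2) * L ^ e' * x0 ^ (-δ2)) * (ε1 ^ 2 * X ^ 2) * ((L ^ (-e')) ^ 2 * L ^ (2 * e')) := by
          rw [h11]
          field_simp
          ring
      _ = NN dd H * ((3 / ε1 ^ 2) * (L ^ e' * L ^ (2 * e')) * x0 ^ (-δ2)) * (ε1 * (X * L ^ (-e'))) ^ 2 := by ring
      _ = NN dd H * ((3 / ε1 ^ 2) * L ^ (3 * e') * x0 ^ (-δ2)) * (ε1 * (X * L ^ (-e'))) ^ 2 := by rw [h12]
      _ ≤ NN dd H * (L ^ (e' / 2) * L ^ (3 * e') * x0 ^ (-δ2)) * (ε1 * (X * L ^ (-e'))) ^ 2 := by gcongr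
  obtain ⟨I, hI⟩ : ∃ I : Finset ℕ, I = (range (M + 2)).filter (fun i => (gp x0 ε1 i : ℝ) ≤ L ^ (A + 1)) := ⟨_, rfl⟩
  have hgpx : ∀ i, x0 ≤ gp x0 ε1 i := by
    intro i
    refine le_trans ?_ (Nat.le_ceil _)
    exact aux4 hx0p (one_le_pow₀ (by linarith))
  have hsub : (Om dd H).filter (fun f => ¬ Concl H A ε x0 G P f) ⊆
      ((Om dd H).filter (fun f => ¬ Tame H A' C P f) ∪
      (Om dd H).filter (fun f => ¬ ∀ z : ℕ, y ≤ z → (z : ℝ) ≤ Real.log H ^ A →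
        |CC (qq G P f) (kk G) z - CC (qq G P f) (kk G) y| ≤ ε1 * CC (qq G P f) (kk G) y)) ∪
      I.biUnion (fun i => (Om dd H).filter (fun f => ε1 * (gp x0 ε1 i * L ^ (-e')) < |S (gp x0 ε1 i) f|)) := by
    intro f hf
    rw [mem_filter] at hf
    by_contra hcon
    rw [mem_union, mem_union, not_or, not_or, mem_filter, mem_filter, mem_biUnion] at hcon
    obtain ⟨⟨hc1, hc2⟩, hc3⟩ := hcon
    have htm' : Tame H A' C P f := by
      by_contra h
      exact hc1 ⟨hf.1, h⟩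
    have hcz : ∀ z : ℕ, y ≤ z → (z : ℝ) ≤ Real.log H ^ A →
        |CC (qq G P f) (kk G) z - CC (qq G P f) (kk G) y| ≤ ε1 * CC (qq G P f) (kk G) y := by
      by_contra h
      exact hc2 ⟨hf.1, h⟩
    have hgood : ∀ i ∈ I, |S (gp x0 ε1 i) f| ≤ ε1 * (gp x0 ε1 i * L ^ (-e')) := by
      intro i hi
      by_contra h8
      push Not at h8
      exact hc3 ⟨i, hi, by rw [mem_filter]; exact ⟨hf.1, h8⟩⟩
    apply hf.2
    intro x hx1 hx2 z hz1 hz2
    rw [← hLd] at hx2 ⊢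
    obtain ⟨q, hq⟩ : ∃ q, q = qq G P f := ⟨_, rfl⟩
    rw [← hq] at hcz ⊢
    have hxr : (0 : ℝ) < x := by linarith
    have hLk0 : 0 < L ^ kk G := by positivity
    have hyz : y ≤ z := by
      have h1 : x0 ^ δ ≤ x0 ^ ε := Real.rpow_le_rpow_of_exponent_le hx01 hδε
      have h2 : (y : ℝ) ≤ z := (hya.trans h1).trans hz1
      exact_mod_cast h2
    have hczz := hcz z hyz hz2
    have hCy0 := CC_nonneg q (kk G) y
    have hxle : ∀ m : ℕ, (m : ℝ) ≤ L ^ (A + 1) → ∀ n ≤ m, ∀ j, ∀ t ∈ TT G n j, |t| ≤ (T0 : ℤ) := by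
      intro m hm n hn j t ht
      exact hpt n (le_trans (by exact_mod_cast hn) hm) j t ht
    refine ⟨?_, ?_⟩
    swap
    · have hl1 := hlp H hn11 T0 P G hG (by rw [← hLd]; exact hT0) (by rw [← hLd]; exact hPv) f hf.1 htm' x
        (fun j t ht => hxle x (hx2.trans (pow_le_pow_right₀ hL1 (by omega))) x le_rfl j t ht)
      rw [← hLd] at hl1
      exact hl1.trans (mul_le_mul_of_nonneg_right (by linarith) hLk0.le)
    -- the case of a fixed divisor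
    by_cases hDy : Dn q y = 0
    · have hCy : CC q (kk G) y = 0 := by unfold CC; rw [hDy, zero_mul]
      have hCz : CC q (kk G) z = 0 := by
        unfold CC
        rw [le_antisymm ((Dn_anti q hyz).trans hDy.le) (Dn_nonneg q z), zero_mul]
      have hpc : pc G P f x = 0 := by
        apply pc_zero G P f hG htm' T0 x y (by rw [← hLd]; exact hT0) (hxle x (hx2.trans (pow_le_pow_right₀ hL1 (by omega))))
        · rw [← hLd]
          have h1 : L ^ A * L ^ C < H := by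
            rw [← pow_add]
            have h2 : √(H : ℝ) < H := aux6 hHr
            linarith
          have h2 : 0 < L ^ C := by positivity
          rw [lt_div_iff₀ h2]
          calc (y : ℝ) * L ^ C ≤ L ^ A * L ^ C := by gcongr
            _ < H := h1
        · rw [← hq]; exact hDy
      rw [hpc, hCz]
      simp
    -- the lower bound of the constant
    have hkc : ((km : ℝ) + cd) ≠ 0 := by positivity
    have hVyb := hV8 H hn8 y hy1 (by rw [← hLd]; exact hyA)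
    rw [← hLd] at hVyb
    have hVy1 : 1 ≤ (Vz y)⁻¹ := (one_le_inv₀ (Vz_pos _)).2 (Vz_le_one y)
    have hVpow : ∀ m : ℕ, m ≤ 2 * (km + cd) → (Vz y)⁻¹ ^ m ≤ L ^ (e' / 2) := by
      intro m hm
      calc (Vz y)⁻¹ ^ m ≤ (Vz y)⁻¹ ^ (2 * (km + cd)) := pow_le_pow_right₀ hVy1 hm
        _ ≤ (L ^ (e' / (4 * (km + cd)))) ^ (2 * (km + cd)) := pow_le_pow_left₀ (by linarith) hVyb _
        _ = L ^ (e' / 2) := by
            rw [← Real.rpow_natCast, ← Real.rpow_mul hL0.le]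
            congr 1
            push_cast
            field_simp
            norm_num
    have hCyL : L ^ (-e') ≤ CC q (kk G) y := by
      have h8 := hDl q (by rw [hq, hcd]; exact (qq_deg hG P hS.degP f).trans (Nat.le_succ _)) y hDy
      have h9 : Dn q y ≤ CC q (kk G) y := by
        unfold CC
        exact le_mul_of_one_le_right (Dn_nonneg q y) (one_le_pow₀ hVy1)
      have h11 := hVpow (2 * cd) (by omega)
      have h12 : L ^ (-(e' / 2)) ≤ Vz y ^ (2 * cd) := by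
        rw [Real.rpow_neg hL0.le, inv_le_comm₀ (by positivity) (pow_pos (Vz_pos y) _), ← inv_pow]
        exact h11
      have h13 : L ^ (-(e' / 2)) ≤ κ := by
        rw [Real.rpow_neg hL0.le, inv_le_comm₀ (by positivity) hκ0, ← one_div]
        exact h7c
      calc L ^ (-e') = L ^ (-(e' / 2)) * L ^ (-(e' / 2)) := by rw [← Real.rpow_add hL0]; congr 1; ring
        _ ≤ κ * Vz y ^ (2 * cd) := mul_le_mul h13 h12 (by positivity) hκ0.le
        _ ≤ Dn q y := h8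
        _ ≤ _ := h9
    -- one point of the grid
    have hpoint : ∀ X : ℕ, x0 ≤ X → (X : ℝ) ≤ L ^ (A + 1) → |S X f| ≤ ε1 * (X * L ^ (-e')) →
        |L ^ kk G * (pc G P f X : ℝ) - X * CC q (kk G) y| ≤ 10 * ε1 * (X * CC q (kk G) y) := by
      intro X hX1 hX2 hSX
      have hX0 : (0 : ℝ) < X := by linarith
      have h1 := hps H hn2 T0 P G hG (by rw [← hLd]; exact hT0) (by rw [← hLd]; exact hPv) f hf.1 htm' X (hxle X hX2)
      rw [← hLd] at h1
      have hyKX : y ^ K ≤ X := by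
        have : ((y ^ K : ℕ) : ℝ) ≤ X := by push_cast; exact hyK.trans hX1
        exact_mod_cast this
      have h2 := hsv X y hyy0 hyKX (qq G P f) (by rw [hcd]; exact (qq_deg hG P hS.degP f).trans (Nat.le_succ _)) X
      have h3 := model_sieve hG P f y X X ε1 h2
      rw [← hq] at h3
      have e1 : S X f = ∑ n ∈ Icc 1 X, MM Lam (fun j t => (P j).eval t) f (TT G n) -
          ∑ n ∈ Icc 1 X, MM (lz y) (fun j t => (P j).eval t) f (TT G n) := by
        rw [hSd]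
        simp only [sum_sub_distrib]
      rw [e1] at hSX
      have hε9a : 1 / ε1 ≤ L ^ (ε / 4) := (le_max_left _ _).trans a9
      have hε9b : 2 ^ km * ((CG dd D : ℝ) + 1) / ε1 ≤ L ^ (ε / 4) := (le_max_right _ _).trans a9
      rw [div_le_iff₀ hε10] at hε9a hε9b
      have hCG0 : (0 : ℝ) ≤ CG dd D := Nat.cast_nonneg _
      have h2km : (1 : ℝ) ≤ 2 ^ km := one_le_pow₀ (by norm_num)
      -- the coincidences
      have hU : (CG dd D : ℝ) * (2 * L) ^ kk G ≤ ε1 * (X * L ^ (-e')) := by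
        have h4 : L ^ (kk G : ℝ) * L ^ ε ≤ X := by
          rw [← Real.rpow_add hL0]
          exact hx0.trans hX1
        have h5 : L ^ (ε / 4) * L ^ e' ≤ L ^ ε := by
          rw [← Real.rpow_add hL0]
          apply Real.rpow_le_rpow_of_exponent_le hL1
          linarith
        have h6 : L ^ e' * L ^ (-e') = 1 := by rw [← Real.rpow_add hL0]; simp
        calc (CG dd D : ℝ) * (2 * L) ^ kk G = (CG dd D * 2 ^ kk G) * L ^ (kk G : ℝ) := by rw [mul_pow, Real.rpow_natCast]; ring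
          _ ≤ (L ^ (ε / 4) * ε1) * L ^ (kk G : ℝ) := by
              apply mul_le_mul_of_nonneg_right _ (by positivity)
              have h7 : (2 : ℝ) ^ kk G ≤ 2 ^ km := pow_le_pow_right₀ (by norm_num) hkk
              calc (CG dd D : ℝ) * 2 ^ kk G ≤ ((CG dd D : ℝ) + 1) * 2 ^ km := by
                    apply mul_le_mul (by linarith) h7 (by positivity) (by linarith)
                _ = 2 ^ km * ((CG dd D : ℝ) + 1) := by ring
                _ ≤ _ := hε9b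
          _ = ε1 * (L ^ (kk G : ℝ) * (L ^ (ε / 4) * L ^ e')) * L ^ (-e') := by
              calc _ = ε1 * (L ^ (kk G : ℝ) * L ^ (ε / 4)) * 1 := by ring
                _ = ε1 * (L ^ (kk G : ℝ) * L ^ (ε / 4)) * (L ^ e' * L ^ (-e')) := by rw [h6]
                _ = _ := by ring
          _ ≤ ε1 * (L ^ (kk G : ℝ) * L ^ ε) * L ^ (-e') := by gcongr
          _ ≤ ε1 * X * L ^ (-e') := by gcongr
          _ = _ := by ring
      have hV : (Vz y)⁻¹ ^ kk G * (√(X : ℝ) + CG dd D) ≤ ε1 * (X * L ^ (-e')) := by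
        have h4 : (Vz y)⁻¹ ^ kk G ≤ L ^ (e' / 2) := hVpow (kk G) (by omega)
        have h5 : L ^ (ε / 2) ≤ √(X : ℝ) := by
          apply Real.le_sqrt_of_sq_le
          rw [← Real.rpow_natCast, ← Real.rpow_mul hL0.le]
          have e2 : ε / 2 * ((2 : ℕ) : ℝ) = ε := by push_cast; ring
          rw [e2]
          exact hx0ε.trans hX1
        have hsX : √(X : ℝ) * √(X : ℝ) = X := Real.mul_self_sqrt hX0.le
        have hsX0 : 0 ≤ √(X : ℝ) := Real.sqrt_nonneg _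
        have hsX1 : 1 ≤ √(X : ℝ) := (Real.one_le_rpow hL1 (by positivity)).trans h5
        have h6 : (√(X : ℝ) + CG dd D) ≤ ((CG dd D : ℝ) + 1) * √(X : ℝ) := aux5 hsX1 hCG0
        have h7 : (CG dd D : ℝ) + 1 ≤ L ^ (ε / 4) * ε1 := by
          refine le_trans ?_ hε9b
          exact le_mul_of_one_le_left (by linarith) h2km
        have h8 : L ^ (e' / 2) * L ^ (ε / 4) ≤ L ^ (ε / 2) * L ^ (-e') := by
          rw [← Real.rpow_add hL0, ← Real.rpow_add hL0]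
          apply Real.rpow_le_rpow_of_exponent_le hL1
          linarith
        calc (Vz y)⁻¹ ^ kk G * (√(X : ℝ) + CG dd D) ≤ L ^ (e' / 2) * ((L ^ (ε / 4) * ε1) * √(X : ℝ)) := by
              apply mul_le_mul h4 _ (by positivity) (by positivity)
              exact h6.trans (mul_le_mul_of_nonneg_right h7 hsX0)
          _ = ε1 * ((L ^ (e' / 2) * L ^ (ε / 4)) * √(X : ℝ)) := by ring
          _ ≤ ε1 * ((L ^ (ε / 2) * L ^ (-e')) * √(X : ℝ)) := by gcongr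
          _ ≤ ε1 * ((√(X : ℝ) * L ^ (-e')) * √(X : ℝ)) := by gcongr
          _ = ε1 * ((√(X : ℝ) * √(X : ℝ)) * L ^ (-e')) := by ring
          _ = _ := by rw [hsX]
      exact num3 (L ^ kk G * (pc G P f X : ℝ)) (CC q (kk G) y) X ε1 (L ^ (-e')) _ _ _ _ hε10 (by linarith) hX0 (by positivity) hCy0 hCyL
        h1 hSX h3 hU hV
    obtain ⟨i, hi1, hi2, hi3, hi4, _⟩ := gp_grid x0 ε1 hx01 hε10 (by
      have h1 : 3 / ε1 ^ 2 ≤ L ^ ε := h7b.trans (Real.rpow_le_rpow_of_exponent_le hL1 (by linarith))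
      have h2 : 3 / ε1 ^ 2 ≤ x0 := h1.trans hx0ε
      rw [div_le_iff₀ (by positivity)] at h2
      have h3 : x0 * ε1 ^ 2 ≤ x0 * ε1 := by
        apply mul_le_mul_of_nonneg_left _ hx0p.le
        exact aux7 hε10 (by linarith)
      linarith) x hx1
    have hiM : i ≤ M := hM2 i (hi4.trans hx2)
    have hgix : (gp x0 ε1 i : ℝ) ≤ x := by exact_mod_cast hi1
    have hb1 : (gp x0 ε1 i : ℝ) ≤ L ^ (A + 1) := (hgix.trans hx2).trans (pow_le_pow_right₀ hL1 (by omega))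
    have hb2 : (gp x0 ε1 (i + 1) : ℝ) ≤ L ^ (A + 1) := by
      calc (gp x0 ε1 (i + 1) : ℝ) ≤ (1 + 2 * ε1) * gp x0 ε1 i := hi3
        _ ≤ L * L ^ A := by
            apply mul_le_mul (by linarith) (hgix.trans hx2) (Nat.cast_nonneg _) hL0.le
        _ = L ^ (A + 1) := by rw [pow_succ]; ring
    have hI1 : i ∈ I := by rw [hI, mem_filter, mem_range]; exact ⟨by omega, hb1⟩
    have hI2 : i + 1 ∈ I := by rw [hI, mem_filter, mem_range]; exact ⟨by omega, hb2⟩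
    have hp1 := hpoint _ (hgpx i) hb1 (hgood i hI1)
    have hp2 := hpoint _ (hgpx (i + 1)) hb2 (hgood (i + 1) hI2)
    have hm1 : L ^ kk G * (pc G P f (gp x0 ε1 i) : ℝ) ≤ L ^ kk G * (pc G P f x : ℝ) := by
      apply mul_le_mul_of_nonneg_left _ hLk0.le
      exact_mod_cast pc_mono G P f hi1
    have hm2 : L ^ kk G * (pc G P f x : ℝ) ≤ L ^ kk G * (pc G P f (gp x0 ε1 (i + 1)) : ℝ) := by
      apply mul_le_mul_of_nonneg_left _ hLk0.le
      exact_mod_cast pc_mono G P f hi2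
    have hfin := num4 (L ^ kk G * (pc G P f x : ℝ)) _ _ x _ _ (CC q (kk G) y) (CC q (kk G) z) ε1 hε10 hε1a hxr (Nat.cast_nonneg _) hCy0
      hm1 hm2 hgix (by exact_mod_cast hi2) hi3 hp1 hp2 hczz
    have hCz0 := CC_nonneg q (kk G) z
    have e2 : (pc G P f x : ℝ) - CC q (kk G) z * (x / L ^ kk G) = (L ^ kk G * (pc G P f x : ℝ) - x * CC q (kk G) z) / L ^ kk G := by
      field_simp
    rw [e2, abs_div, abs_of_pos hLk0, div_le_iff₀ hLk0]
    refine hfin.trans ?_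
    have e3 : ε * (CC q (kk G) z * (x / L ^ kk G)) * L ^ kk G = ε * (x * CC q (kk G) z) := by
      field_simp
    rw [e3]
    exact mul_le_mul_of_nonneg_right hε1b (by positivity)
  -- the count
  have hcz' := hCZ H hn3 y (by rw [← hLd]; exact hyL) (by rw [← hLd]; exact hyA) P G hG hS
  rw [← hLd] at hcz' hsub
  have hc1 := (card_le_card hsub).trans ((card_union_le _ _).trans (add_le_add (card_union_le _ _) card_biUnion_le))
  have hc2 : (((Om dd H).filter (fun f => ¬ Concl H A ε x0 G P f)).card : ℝ) ≤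
      (NN dd H / L ^ (A + 1) + NN dd H * (L ^ e' / y)) + ∑ i ∈ I, NN dd H * (L ^ (e' / 2) * L ^ (3 * e') * x0 ^ (-δ2)) := by
    refine le_trans (Nat.cast_le.2 hc1) ?_
    push_cast
    apply add_le_add (add_le_add htm hcz')
    apply sum_le_sum
    intro i hi
    rw [hI, mem_filter] at hi
    exact hbadX _ (hgpx i) hi.2
  refine hc2.trans ?_
  rw [sum_const, nsmul_eq_mul]
  have hIc : (I.card : ℝ) ≤ L ^ e' := by
    have h8 : I.card ≤ M + 2 := by
      rw [hI]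
      refine (card_filter_le _ _).trans ?_
      rw [card_range]
    have h9 : (I.card : ℝ) ≤ M + 2 := by exact_mod_cast h8
    exact h9.trans hM1
  have hxpow : ∀ s : ℝ, 0 ≤ s → L ^ s ≤ x0 ^ (s / ε) := by
    intro s hs
    calc L ^ s = (L ^ ε) ^ (s / ε) := by
          rw [← Real.rpow_mul hL0.le]
          congr 1
          field_simp
      _ ≤ _ := Real.rpow_le_rpow (by positivity) hx0ε (by positivity)
  have hx0c : x0 ^ (-(δ2 / 4)) * 3 ≥ 0 := by positivity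
  -- the three terms
  have ht1 : NN dd H / L ^ (A + 1) ≤ NN dd H * (x0 ^ (-(δ2 / 4)) / 3) := by
    rw [div_eq_mul_inv]
    apply mul_le_mul_of_nonneg_left _ hNN.le
    have h1 : (L ^ (A + 1))⁻¹ ≤ (3 * x0)⁻¹ := by
      apply inv_anti₀ (by positivity)
      rw [pow_succ]
      exact aux8 hL3 hbig hx0p
    refine h1.trans ?_
    rw [mul_inv, mul_comm, ← div_eq_mul_inv]
    apply div_le_div_of_nonneg_right _ (by norm_num)
    rw [← Real.rpow_neg_one]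
    exact Real.rpow_le_rpow_of_exponent_le hx01 (by linarith)
  have hterm : ∀ s : ℝ, 0 ≤ s → s ≤ 6 * e' → 2 * L ^ s * x0 ^ (-δ2) ≤ x0 ^ (-(δ2 / 4)) / 3 := by
    intro s hs hs2
    have h1 := hxpow (s + e') (by linarith)
    have h2 : L ^ (s + e') = L ^ s * L ^ e' := Real.rpow_add hL0 _ _
    have h3 : 6 ≤ L ^ e' := by
      have h4 : L ^ (e' / 2) * L ^ (e' / 2) = L ^ e' := by rw [← Real.rpow_add hL0]; congr 1; ring
      exact aux9 h7d h4
    rw [le_div_iff₀ (by norm_num)]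
    calc 2 * L ^ s * x0 ^ (-δ2) * 3 = (L ^ s * 6) * x0 ^ (-δ2) := by ring
      _ ≤ (L ^ s * L ^ e') * x0 ^ (-δ2) := by gcongr
      _ ≤ x0 ^ ((s + e') / ε) * x0 ^ (-δ2) := by rw [← h2]; gcongr
      _ = x0 ^ ((s + e') / ε + -δ2) := (Real.rpow_add hx0p _ _).symm
      _ ≤ x0 ^ (-(δ2 / 4)) := by
          apply Real.rpow_le_rpow_of_exponent_le hx01
          have h5 : (s + e') / ε ≤ 7 * δ2 / 16 := by
            rw [div_le_iff₀ hε]
            rw [he'd] at hs2 ⊢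
            exact aux10 hs2
          linarith
  have ht2 : NN dd H * (L ^ e' / y) ≤ NN dd H * (x0 ^ (-(δ2 / 4)) / 3) := by
    apply mul_le_mul_of_nonneg_left _ hNN.le
    refine le_trans ?_ (hterm e' he'0.le (by linarith))
    rw [div_eq_mul_inv]
    have h2 : ((y : ℝ))⁻¹ ≤ 2 * (x0 ^ δ)⁻¹ := by
      rw [← div_eq_mul_inv, le_div_iff₀ (by positivity), inv_mul_le_iff₀ (by linarith)]
      linarith
    rw [← Real.rpow_neg hx0p.le] at h2
    have h3 : x0 ^ (-δ) ≤ x0 ^ (-δ2) := Real.rpow_le_rpow_of_exponent_le hx01 (by linarith)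
    calc L ^ e' * ((y : ℝ))⁻¹ ≤ L ^ e' * (2 * x0 ^ (-δ2)) := by gcongr; linarith
      _ = _ := by ring
  have ht3 : (I.card : ℝ) * (NN dd H * (L ^ (e' / 2) * L ^ (3 * e') * x0 ^ (-δ2))) ≤ NN dd H * (x0 ^ (-(δ2 / 4)) / 3) := by
    have h1 := hterm (e' + e' / 2 + 3 * e') (by positivity) (by linarith)
    have h2 : L ^ (e' + e' / 2 + 3 * e') = L ^ e' * L ^ (e' / 2) * L ^ (3 * e') := by rw [Real.rpow_add hL0, Real.rpow_add hL0]
    calc (I.card : ℝ) * (NN dd H * (L ^ (e' / 2) * L ^ (3 * e') * x0 ^ (-δ2)))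
        ≤ L ^ e' * (NN dd H * (L ^ (e' / 2) * L ^ (3 * e') * x0 ^ (-δ2))) := by gcongr
      _ = NN dd H * (L ^ (e' + e' / 2 + 3 * e') * x0 ^ (-δ2)) := by rw [h2]; ring
      _ ≤ NN dd H * (2 * L ^ (e' + e' / 2 + 3 * e') * x0 ^ (-δ2)) := by
          apply mul_le_mul_of_nonneg_left _ hNN.le
          have : 0 ≤ L ^ (e' + e' / 2 + 3 * e') * x0 ^ (-δ2) := by positivity
          linarith
      _ ≤ _ := mul_le_mul_of_nonneg_left h1 hNN.le
  have e4 : NN dd H / x0 ^ (δ2 / 4) = NN dd H * x0 ^ (-(δ2 / 4)) := by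
    rw [Real.rpow_neg hx0p.le, div_eq_mul_inv]
  rw [e4]
  linarith

end Pool.Agent.T9h23.BH
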